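import Pool.Agent.Work.MP_f4aefe_co.Sep

/-!
The union of two noncrossing edge sets (one drawn inside, one outside the circle) has no
covey with five members.
-/

namespace HurwitzDiam

open Finset

set_option linter.unusedSectionVars false

variable {V : Type*} [Fintype V] [LinearOrder V]

/-- the linking form mod 2 -/
noncomputable def Lk (f g : V → ZMod 2) : ZMod 2 := ∑ p, ∑ q, if q ≤ p then f p * g q else 0

lemma Lk_add_left (f f' g : V → ZMod 2) : Lk (f + f') g = Lk f g + Lk f' g := by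
  unfold Lk
  rw [← Finset.sum_add_distrib]
  refine Finset.sum_congr rfl fun p _ => ?_
  rw [← Finset.sum_add_distrib]
  refine Finset.sum_congr rfl fun q _ => ?_
  split_ifs
  · rw [Pi.add_apply]; ring
  · ring

lemma Lk_add_right (f g g' : V → ZMod 2) : Lk f (g + g') = Lk f g + Lk f g' := by
  unfold Lk
  rw [← Finset.sum_add_distrib]
  refine Finset.sum_congr rfl fun p _ => ?_
  rw [← Finset.sum_add_distrib]
  refine Finset.sum_congr rfl fun q _ => ?_
  split_ifs
  · rw [Pi.add_apply]; ring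
  · ring

lemma Lk_smul_left (a : ZMod 2) (f g : V → ZMod 2) : Lk (a • f) g = a * Lk f g := by
  unfold Lk
  rw [Finset.mul_sum]
  refine Finset.sum_congr rfl fun p _ => ?_
  rw [Finset.mul_sum]
  refine Finset.sum_congr rfl fun q _ => ?_
  split_ifs
  · rw [Pi.smul_apply, smul_eq_mul]; ring
  · ring

lemma Lk_smul_right (a : ZMod 2) (f g : V → ZMod 2) : Lk f (a • g) = a * Lk f g := by
  unfold Lk
  rw [Finset.mul_sum]
  refine Finset.sum_congr rfl fun p _ => ?_
  rw [Finset.mul_sum]
  refine Finset.sum_congr rfl fun q _ => ?_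
  split_ifs
  · rw [Pi.smul_apply, smul_eq_mul]; ring
  · ring

lemma Lk_zero_left (g : V → ZMod 2) : Lk 0 g = 0 := by
  simp [Lk]

lemma Lk_zero_right (f : V → ZMod 2) : Lk f 0 = 0 := by
  simp [Lk]

lemma Lk_single (a b : V) :
    Lk (Pi.single a 1 : V → ZMod 2) (Pi.single b 1) = if b ≤ a then 1 else 0 := by
  unfold Lk
  rw [Finset.sum_eq_single a]
  · rw [Finset.sum_eq_single b]
    · simp
    · intro q _ hq
      simp [Pi.single_eq_of_ne hq]
    · intro h; exact absurd (Finset.mem_univ _) h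
  · intro p _ hp
    apply Finset.sum_eq_zero
    intro q _
    simp [Pi.single_eq_of_ne hp]
  · intro h; exact absurd (Finset.mem_univ _) h

lemma zmod2_add_self (a : ZMod 2) : a + a = 0 := by
  revert a; decide

lemma Lk_symm (f g : V → ZMod 2) (hf : ∑ p, f p = 0) (hfg : ∀ p, f p * g p = 0) :
    Lk f g = Lk g f := by
  have h : Lk f g + Lk g f = (∑ p, f p) * (∑ q, g q) + ∑ p, f p * g p := by
    unfold Lk
    rw [Finset.sum_mul_sum]
    have h1 : (∑ p, ∑ q, if q ≤ p then g p * f q else 0) =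
        ∑ p, ∑ q, if p ≤ q then f p * g q else 0 := by
      rw [Finset.sum_comm]
      refine Finset.sum_congr rfl fun p _ => Finset.sum_congr rfl fun q _ => ?_
      split_ifs
      · ring
      · rfl
    have h2 : ∑ p, f p * g p = ∑ p, ∑ q, if p = q then f p * g q else 0 := by
      refine Finset.sum_congr rfl fun p _ => ?_
      rw [Finset.sum_ite_eq]
      simp
    rw [h1, h2, ← Finset.sum_add_distrib, ← Finset.sum_add_distrib]
    refine Finset.sum_congr rfl fun p _ => ?_
    rw [← Finset.sum_add_distrib, ← Finset.sum_add_distrib]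
    refine Finset.sum_congr rfl fun q _ => ?_
    rcases lt_trichotomy p q with h | h | h
    · simp [h.le, not_le.2 h, h.ne]
    · subst h; simp
    · simp [h.le, not_le.2 h, h.ne']
  rw [hf, zero_mul, zero_add, Finset.sum_eq_zero (fun p _ => hfg p)] at h
  have h2 := zmod2_add_self (Lk g f)
  calc Lk f g = Lk f g + (Lk g f + Lk g f) := by rw [h2, add_zero]
    _ = (Lk f g + Lk g f) + Lk g f := by ring
    _ = Lk g f := by rw [h, zero_add]

/-- the boundary vector of a chord -/
def E (a b : V) : V → ZMod 2 := Pi.single a 1 + Pi.single b 1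

lemma E_self (a : V) : E a a = 0 := by
  unfold E
  funext p
  exact zmod2_add_self _

lemma E_comm (a b : V) : E a b = E b a := add_comm _ _

lemma E_trans (a b c : V) : E a b + E b c = E a c := by
  unfold E
  funext p
  simp only [Pi.add_apply]
  have h := zmod2_add_self ((Pi.single b 1 : V → ZMod 2) p)
  linear_combination h

/-- the span of the chords inside a set -/
def Sp (T : V → V → Prop) (U : Finset V) : Submodule (ZMod 2) (V → ZMod 2) :=
  Submodule.span (ZMod 2) {e | ∃ a b, T a b ∧ a ∈ U ∧ b ∈ U ∧ e = E a b}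

lemma E_sum (a b : V) : ∑ p, E a b p = 0 := by
  unfold E
  simp only [Pi.add_apply, Finset.sum_add_distrib]
  rw [Finset.sum_pi_single', Finset.sum_pi_single']
  simp only [Finset.mem_univ, if_true]
  decide

lemma Sp_sum {T : V → V → Prop} {U : Finset V} {f : V → ZMod 2} (hf : f ∈ Sp T U) :
    ∑ p, f p = 0 := by
  unfold Sp at hf
  induction hf using Submodule.span_induction with
  | mem x hx =>
    obtain ⟨a, b, -, -, -, rfl⟩ := hx
    exact E_sum a b
  | zero => simp
  | add x y _ _ hx hy => simp only [Pi.add_apply, Finset.sum_add_distrib, hx, hy, add_zero]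
  | smul a x _ hx =>
    simp only [Pi.smul_apply, smul_eq_mul]
    rw [← Finset.mul_sum, hx, mul_zero]

lemma Sp_supp {T : V → V → Prop} {U : Finset V} {f : V → ZMod 2} (hf : f ∈ Sp T U) :
    ∀ p, p ∉ U → f p = 0 := by
  unfold Sp at hf
  induction hf using Submodule.span_induction with
  | mem x hx =>
    obtain ⟨a, b, -, ha, hb, rfl⟩ := hx
    intro p hp
    unfold E
    have h1 : p ≠ a := fun h => hp (h ▸ ha)
    have h2 : p ≠ b := fun h => hp (h ▸ hb)
    simp [Pi.single_eq_of_ne h1, Pi.single_eq_of_ne h2]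
  | zero => intro p _; rfl
  | add x y _ _ hx hy => intro p hp; simp [hx p hp, hy p hp]
  | smul a x _ hx => intro p hp; simp [hx p hp]

lemma Sp_cross {T : V → V → Prop}
    (hT : ∀ a b c d, T a b → T c d → a ≠ c → a ≠ d → b ≠ c → b ≠ d → Lk (E a b) (E c d) = 0)
    {U U' : Finset V} (hd : Disjoint U U') {f g : V → ZMod 2} (hf : f ∈ Sp T U)
    (hg : g ∈ Sp T U') : Lk f g = 0 := by
  unfold Sp at hf hg
  induction hf using Submodule.span_induction with
  | mem x hx =>
    obtain ⟨a, b, hab, ha, hb, rfl⟩ := hx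
    induction hg using Submodule.span_induction with
    | mem y hy =>
      obtain ⟨c, d, hcd, hc, hd', rfl⟩ := hy
      have hne : ∀ x ∈ U, ∀ y ∈ U', x ≠ y := by
        rintro x hx y hy rfl
        exact Finset.disjoint_left.1 hd hx hy
      exact hT a b c d hab hcd (hne a ha c hc) (hne a ha d hd') (hne b hb c hc) (hne b hb d hd')
    | zero => exact Lk_zero_right _
    | add x y _ _ hx hy => rw [Lk_add_right, hx, hy, add_zero]
    | smul a x _ hx => rw [Lk_smul_right, hx, mul_zero]
  | zero => exact Lk_zero_left _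
  | add x y _ _ hx hy => rw [Lk_add_left, hx, hy, add_zero]
  | smul a x _ hx => rw [Lk_smul_left, hx, mul_zero]

lemma conn_chain {Tx Ty : V → V → Prop} {U : Finset V}
    (hU : Conn (fun a b => Tx a b ∨ Ty a b) U) {a b : V} (ha : a ∈ U) (hb : b ∈ U) :
    ∃ f ∈ Sp Tx U, f + E a b ∈ Sp Ty U := by
  refine conn_induct hU ha (fun b => ∃ f ∈ Sp Tx U, f + E a b ∈ Sp Ty U) ?_ ?_ b hb
  · exact ⟨0, Submodule.zero_mem _, by rw [E_self, add_zero]; exact Submodule.zero_mem _⟩
  · rintro x hx y hy hxy ⟨f, hf, hg⟩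
    rcases hxy with hxy | hxy
    · refine ⟨f + E x y, Submodule.add_mem _ hf (Submodule.subset_span ⟨x, y, hxy, hx, hy, rfl⟩), ?_⟩
      have h : f + E x y + E a y = f + E a x := by
        rw [add_assoc, E_comm a y, E_trans x y a, E_comm x a]
      rw [h]
      exact hg
    · refine ⟨f, hf, ?_⟩
      have h : f + E a y = f + E a x + E x y := by
        rw [add_assoc, E_trans]
      rw [h]
      exact Submodule.add_mem _ hg (Submodule.subset_span ⟨x, y, hxy, hx, hy, rfl⟩)

lemma conn_union {G : V → V → Prop} (hs : ∀ a b, G a b → G b a) {C D : Finset V}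
    (hC : Conn G C) (hD : Conn G D) {c d : V} (hc : c ∈ C) (hd : d ∈ D) (hcd : G c d) :
    Conn G (C ∪ D) := by
  refine conn_of_center hs (c := c) (mem_union_left _ hc) ?_
  intro a ha
  rcases mem_union.1 ha with ha | ha
  · exact (hC.2 c hc a ha).mono subset_union_left
  · have h1 : Rin G (C ∪ D) c d :=
      Relation.ReflTransGen.single ⟨hcd, mem_union_left _ hc, mem_union_right _ hd⟩
    exact h1.trans ((hD.2 d hd a ha).mono subset_union_right)

set_option maxRecDepth 8000 in
lemma parity5 (X : Fin 5 → Fin 5 → Fin 5 → ZMod 2) (c : Fin 5 → Fin 5 → ZMod 2)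
    (H : ∀ i j k l : Fin 5, i < j → k < l → i ≠ k → i ≠ l → j ≠ k → j ≠ l →
      X i j k + X i j l + X k l i + X k l j = c k i + c l i + c k j + c l j)
    (hc : ∀ q p : Fin 5, q ≠ p → c q p + c p q = 1) : False := by
  have hz : (2 : ZMod 2) = 0 := by decide
  have h0 := H 0 1 2 3 (by decide) (by decide) (by decide) (by decide) (by decide) (by decide)
  have h1 := H 0 1 2 4 (by decide) (by decide) (by decide) (by decide) (by decide) (by decide)
  have h2 := H 0 1 3 4 (by decide) (by decide) (by decide) (by decide) (by decide) (by decide)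
  have h3 := H 0 2 1 3 (by decide) (by decide) (by decide) (by decide) (by decide) (by decide)
  have h4 := H 0 2 1 4 (by decide) (by decide) (by decide) (by decide) (by decide) (by decide)
  have h5 := H 0 2 3 4 (by decide) (by decide) (by decide) (by decide) (by decide) (by decide)
  have h6 := H 0 3 1 2 (by decide) (by decide) (by decide) (by decide) (by decide) (by decide)
  have h7 := H 0 3 1 4 (by decide) (by decide) (by decide) (by decide) (by decide) (by decide)
  have h8 := H 0 3 2 4 (by decide) (by decide) (by decide) (by decide) (by decide) (by decide)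
  have h9 := H 0 4 1 2 (by decide) (by decide) (by decide) (by decide) (by decide) (by decide)
  have h10 := H 0 4 1 3 (by decide) (by decide) (by decide) (by decide) (by decide) (by decide)
  have h11 := H 0 4 2 3 (by decide) (by decide) (by decide) (by decide) (by decide) (by decide)
  have h12 := H 1 2 3 4 (by decide) (by decide) (by decide) (by decide) (by decide) (by decide)
  have h13 := H 1 3 2 4 (by decide) (by decide) (by decide) (by decide) (by decide) (by decide)
  have h14 := H 1 4 2 3 (by decide) (by decide) (by decide) (by decide) (by decide) (by decide)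
  have k20 := hc 2 0 (by decide)
  have k30 := hc 3 0 (by decide)
  have k21 := hc 2 1 (by decide)
  have k31 := hc 3 1 (by decide)
  have k40 := hc 4 0 (by decide)
  have k41 := hc 4 1 (by decide)
  have k10 := hc 1 0 (by decide)
  have k32 := hc 3 2 (by decide)
  have k42 := hc 4 2 (by decide)
  have k43 := hc 4 3 (by decide)
  have h1e : (1 : ZMod 2) = 0 := by
    linear_combination (-1 : ZMod 2) * h0 - h1 - h2 - h3 - h4 - h5 - h6 - h7 - h8 - h9 - h10 - h11 - h12 - h13 - h14 - 6 * k20 - 6 * k30 - 4 * k21 - 4 * k31 - 6 * k40 - 4 * k41 - 6 * k10 - 3 * k32 - 3 * k42 - 3 * k43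
      + (X 0 1 2 + X 0 1 3 + X 2 3 0 + X 2 3 1 + X 0 1 4 + X 2 4 0 + X 2 4 1 + X 3 4 0 + X 3 4 1 + X 0 2 1 + X 0 2 3 + X 1 3 0 + X 1 3 2 + X 0 2 4 + X 1 4 0 + X 1 4 2 + X 3 4 2 + X 0 3 1 + X 0 3 2 + X 1 2 0 + X 1 2 3 + X 0 3 4 + X 1 4 3 + X 2 4 3 + X 0 4 1 + X 0 4 2 + X 1 2 4 + X 0 4 3 + X 1 3 4 + X 2 3 4 - 22 - (-3) * c 0 2 - (-3) * c 0 3 - (-1) * c 1 2 - (-1) * c 1 3 - (-3) * c 0 4 - (-1) * c 1 4 - (-3) * c 0 1) * hz
  exact one_ne_zero h1e

theorem no_covey5 {Tx Ty : V → V → Prop} (hsx : ∀ a b, Tx a b → Tx b a)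
    (hsy : ∀ a b, Ty a b → Ty b a)
    (hTx : ∀ a b c d, Tx a b → Tx c d → a ≠ c → a ≠ d → b ≠ c → b ≠ d → Lk (E a b) (E c d) = 0)
    (hTy : ∀ a b c d, Ty a b → Ty c d → a ≠ c → a ≠ d → b ≠ c → b ≠ d → Lk (E a b) (E c d) = 0)
    (𝒞 : Finset (Finset V)) (h𝒞 : Covey (fun a b => Tx a b ∨ Ty a b) 𝒞) : 𝒞.card ≤ 4 := by
  classical
  by_contra hcon
  push Not at hcon
  have hs : ∀ a b, (Tx a b ∨ Ty a b) → (Tx b a ∨ Ty b a) :=
    fun a b h => h.imp (hsx a b) (hsy a b)
  obtain ⟨𝒟, h𝒟𝒞, h𝒟⟩ := Finset.exists_subset_card_eq (show 5 ≤ 𝒞.card from hcon)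
  let e := 𝒟.equivFinOfCardEq h𝒟
  let B : Fin 5 → Finset V := fun i => (e.symm i : Finset V)
  have hBmem : ∀ i, B i ∈ 𝒞 := fun i => h𝒟𝒞 (e.symm i).2
  have hBinj : ∀ i j, i ≠ j → B i ≠ B j := by
    intro i j hij h
    exact hij (e.symm.injective (Subtype.ext h))
  have hBconn : ∀ i, Conn (fun a b => Tx a b ∨ Ty a b) (B i) := fun i => h𝒞.1 _ (hBmem i)
  have hBdis : ∀ i j, i ≠ j → Disjoint (B i) (B j) :=
    fun i j hij => (h𝒞.2 _ (hBmem i) _ (hBmem j) (hBinj i j hij)).1
  choose v hv using fun i => (hBconn i).1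
  have hU : ∀ i j, i ≠ j → Conn (fun a b => Tx a b ∨ Ty a b) (B i ∪ B j) := by
    intro i j hij
    obtain ⟨-, c, hc, d, hd, hcd⟩ := h𝒞.2 _ (hBmem i) _ (hBmem j) (hBinj i j hij)
    exact conn_union hs (hBconn i) (hBconn j) hc hd hcd
  have hch : ∀ i j, ∃ f : V → ZMod 2, i ≠ j →
      f ∈ Sp Tx (B i ∪ B j) ∧ f + E (v i) (v j) ∈ Sp Ty (B i ∪ B j) := by
    intro i j
    by_cases hij : i = j
    · exact ⟨0, fun h => absurd hij h⟩
    · obtain ⟨f, hf, hg⟩ := conn_chain (hU i j hij) (mem_union_left _ (hv i))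
        (mem_union_right _ (hv j))
      exact ⟨f, fun _ => ⟨hf, hg⟩⟩
  choose f hf using hch
  have hvinj : ∀ i j, i ≠ j → v i ≠ v j := by
    intro i j hij h
    exact Finset.disjoint_left.1 (hBdis i j hij) (hv i) (h ▸ hv j)
  refine parity5 (fun i j k => Lk (f i j) (Pi.single (v k) 1))
    (fun q p => Lk (Pi.single (v p) 1 : V → ZMod 2) (Pi.single (v q) 1)) ?_ ?_
  · intro i j k l hij hkl hik hil hjk hjl
    have hijne := hij.ne
    have hklne := hkl.ne
    have hdis : Disjoint (B i ∪ B j) (B k ∪ B l) := by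
      rw [Finset.disjoint_union_left, Finset.disjoint_union_right, Finset.disjoint_union_right]
      exact ⟨⟨hBdis i k hik, hBdis i l hil⟩, hBdis j k hjk, hBdis j l hjl⟩
    obtain ⟨hfx, hfy⟩ := hf i j hijne
    obtain ⟨hgx, hgy⟩ := hf k l hklne
    have h1 : Lk (f i j) (f k l) = 0 := Sp_cross hTx hdis hfx hgx
    have h2 : Lk (f i j + E (v i) (v j)) (f k l + E (v k) (v l)) = 0 := Sp_cross hTy hdis hfy hgy
    have h3 : Lk (E (v i) (v j)) (f k l) = Lk (f k l) (E (v i) (v j)) := by
      refine Lk_symm _ _ (E_sum _ _) ?_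
      intro p
      by_cases hp : p ∈ B k ∪ B l
      · have hp' : p ∉ B i ∪ B j := fun h => Finset.disjoint_left.1 hdis h hp
        have h4 : p ≠ v i := fun h => hp' (h ▸ mem_union_left _ (hv i))
        have h5 : p ≠ v j := fun h => hp' (h ▸ mem_union_right _ (hv j))
        unfold E
        simp [Pi.single_eq_of_ne h4, Pi.single_eq_of_ne h5]
      · rw [Sp_supp hgx p hp, mul_zero]
    rw [Lk_add_left, Lk_add_right, Lk_add_right, h1, h3] at h2
    unfold E at h2
    simp only [Lk_add_left, Lk_add_right] at h2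
    have h2z : (2 : ZMod 2) = 0 := by decide
    linear_combination h2 - (Lk (Pi.single (v i) 1 : V → ZMod 2) (Pi.single (v k) 1) +
      Lk (Pi.single (v i) 1 : V → ZMod 2) (Pi.single (v l) 1) +
      Lk (Pi.single (v j) 1 : V → ZMod 2) (Pi.single (v k) 1) +
      Lk (Pi.single (v j) 1 : V → ZMod 2) (Pi.single (v l) 1)) * h2z
  · intro q p hqp
    have hne := hvinj q p hqp
    simp only [Lk_single]
    rcases lt_or_gt_of_ne hne with h | h
    · simp [h.le, not_le.2 h]
    · simp [h.le, not_le.2 h]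

end HurwitzDiam
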