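import Pool.Agent.Work.MP_f4aefe_co.Proc
import Pool.Agent.Work.MP_f4aefe_co.K5

/-!
The chords of a minimal factorisation of the standard cycle do not cross.
-/

namespace HurwitzDiam

open Finset Equiv

set_option linter.unusedSectionVars false

lemma zmod2_eq_of_add {a b : ZMod 2} (h : a + b = 0) : a = b := by
  revert a b; decide

section Coloring

variable {V : Type*} [DecidableEq V] [Fintype V]

lemma invariant_prod {W : Type*} (y : V → W) (w : List (Equiv.Perm V))
    (h : ∀ t ∈ w, ∀ x, y (t x) = y x) (x : V) : y (w.prod x) = y x := by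
  induction w with
  | nil => simp
  | cons t w ih =>
    rw [List.prod_cons, Equiv.Perm.mul_apply, h t (List.mem_cons_self)]
    exact ih (fun t ht => h t (List.mem_cons_of_mem _ ht))

lemma invariant_rel {W : Type*} (y : V → W) (w : List (Equiv.Perm V))
    (h : ∀ t ∈ w, ∀ x, y (t x) = y x) {a b : V} (hab : Rel w a b) : y a = y b := by
  induction hab with
  | rel a b hr => obtain ⟨t, ht, rfl⟩ := hr; exact (h t ht a).symm
  | refl a => rfl
  | symm a b _ ih => exact ih.symm
  | trans a b c _ _ ih1 ih2 => exact ih1.trans ih2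

lemma invariant_swap {W : Type*} {y : V → W} {a b : V} (h : y a = y b) (x : V) :
    y (swap a b x) = y x := by
  by_cases hxa : x = a
  · subst hxa; rw [swap_apply_left, h]
  · by_cases hxb : x = b
    · subst hxb; rw [swap_apply_right, h]
    · rw [swap_apply_of_ne_of_ne hxa hxb]

/-- colourings with prescribed differences along the edges of a tree word -/
lemma exists_coloring {l : List (Equiv.Perm V)} {m : ℕ} (hl : IsTree l m)
    (hm : Fintype.card V = m + 1) (a b : Fin m → V)
    (hab : ∀ t ∈ l, ∃ k, t = swap (a k) (b k)) (δ : Fin m → ZMod 2) :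
    ∃ y : V → ZMod 2, ∀ k, y (a k) + y (b k) = δ k := by
  classical
  let Φ : (V → ZMod 2) →ₗ[ZMod 2] (Fin m → ZMod 2) :=
    { toFun := fun y k => y (a k) + y (b k)
      map_add' := by
        intro y z
        funext k
        simp only [Pi.add_apply]
        ring
      map_smul' := by
        intro r y
        funext k
        simp only [Pi.smul_apply, smul_eq_mul, RingHom.id_apply]
        ring }
  have hker : LinearMap.ker Φ ≤ Submodule.span (ZMod 2) {(fun _ => 1 : V → ZMod 2)} := by
    intro y hy
    rw [LinearMap.mem_ker] at hy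
    have hy' : ∀ k, y (a k) = y (b k) := fun k => zmod2_eq_of_add (congrFun hy k)
    have hinv : ∀ t ∈ l, ∀ x, y (t x) = y x := by
      intro t ht x
      obtain ⟨k, rfl⟩ := hab t ht
      exact invariant_swap (hy' k) x
    have hne : Nonempty V := by
      rw [← Fintype.card_pos_iff, hm]; omega
    obtain ⟨v⟩ := hne
    rw [Submodule.mem_span_singleton]
    refine ⟨y v, ?_⟩
    funext x
    have := invariant_rel y l hinv (hl.tot v x)
    simp [this]
  have hk1 : Module.finrank (ZMod 2) (LinearMap.ker Φ) ≤ 1 := by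
    refine (Submodule.finrank_mono hker).trans ?_
    refine (finrank_span_le_card _).trans ?_
    simp
  have hrn := LinearMap.finrank_range_add_finrank_ker Φ
  rw [Module.finrank_fintype_fun_eq_card, hm] at hrn
  have hle : Module.finrank (ZMod 2) (LinearMap.range Φ) ≤ m := by
    have := Submodule.finrank_le (LinearMap.range Φ)
    rwa [Module.finrank_fintype_fun_eq_card, Fintype.card_fin] at this
  have htop : LinearMap.range Φ = ⊤ := by
    apply Submodule.eq_top_of_finrank_eq
    rw [Module.finrank_fintype_fun_eq_card, Fintype.card_fin]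
    omega
  obtain ⟨y, hy⟩ := LinearMap.range_eq_top.1 htop δ
  exact ⟨y, fun k => congrFun hy k⟩

end Coloring

variable {m : ℕ}

/-- a colouring that changes exactly along one chord -/
lemma chord_coloring {l : List (Equiv.Perm (Fin (m + 1)))} (hl : IsTree l m)
    {j : ℕ} (hj : j < l.length) {c d : Fin (m + 1)} (hcd : c ≠ d) (hjs : l[j] = swap c d) :
    ∃ y : Fin (m + 1) → ZMod 2,
      (∀ x, y (l.prod x) = y x + E c d x) ∧
      (∀ (k : ℕ) (hk : k < l.length), k < j → ∀ x, y (l[k] x) = y x) ∧
      (∀ (k : ℕ) (hk : k < l.length), j < k → ∀ x, y (l[k] x) + E c d (l[k] x) = y x + E c d x) := by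
  classical
  have hlen := hl.len
  have hch : ∀ k : Fin m, ∃ a b : Fin (m + 1), a ≠ b ∧ l[(k : ℕ)]'(by rw [hlen]; exact k.2) = swap a b ∧
      ((k : ℕ) = j → a = c ∧ b = d) := by
    intro k
    by_cases hk : (k : ℕ) = j
    · refine ⟨c, d, hcd, ?_, fun _ => ⟨rfl, rfl⟩⟩
      subst hk
      exact hjs
    · obtain ⟨a, b, hab, h⟩ := hl.swp _ (List.getElem_mem (by rw [hlen]; exact k.2))
      exact ⟨a, b, hab, h, fun h => absurd h hk⟩
  choose a b hab hlk hjk using hch
  have hcov : ∀ t ∈ l, ∃ k, t = swap (a k) (b k) := by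
    intro t ht
    obtain ⟨k, hk, rfl⟩ := List.mem_iff_getElem.1 ht
    exact ⟨⟨k, by rw [← hlen]; exact hk⟩, hlk ⟨k, by rw [← hlen]; exact hk⟩⟩
  obtain ⟨y, hy⟩ := exists_coloring hl (by simp) a b hcov
    (fun k => if (k : ℕ) < j then 0 else if (k : ℕ) = j then 1 else E c d (a k) + E c d (b k))
  have hlow : ∀ (k : ℕ) (hk : k < l.length), k < j → ∀ x, y (l[k] x) = y x := by
    intro k hk hkj x
    have h1 := hy ⟨k, by rw [← hlen]; exact hk⟩
    simp only [hkj, if_true] at h1
    have h2 := hlk ⟨k, by rw [← hlen]; exact hk⟩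
    simp only at h2
    rw [h2]
    exact invariant_swap (zmod2_eq_of_add h1) x
  have hhigh : ∀ (k : ℕ) (hk : k < l.length), j < k →
      ∀ x, y (l[k] x) + E c d (l[k] x) = y x + E c d x := by
    intro k hk hkj x
    have h1 := hy ⟨k, by rw [← hlen]; exact hk⟩
    simp only [not_lt.2 hkj.le, if_false, hkj.ne'] at h1
    have h2 := hlk ⟨k, by rw [← hlen]; exact hk⟩
    simp only at h2
    rw [h2]
    refine invariant_swap (y := fun x => y x + E c d x) ?_ x
    apply zmod2_eq_of_add
    have h3 := zmod2_add_self (E c d (a ⟨k, by rw [← hlen]; exact hk⟩) +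
      E c d (b ⟨k, by rw [← hlen]; exact hk⟩))
    linear_combination h1 + h3
  refine ⟨y, ?_, hlow, hhigh⟩
  have hmid : ∀ x, y (l[j] x) = y x + E c d x := by
    intro x
    have h1 := hy ⟨j, by rw [← hlen]; exact hj⟩
    obtain ⟨ha, hb⟩ := hjk ⟨j, by rw [← hlen]; exact hj⟩ rfl
    rw [ha, hb] at h1
    simp only [lt_irrefl, if_false, if_true] at h1
    rw [hjs]
    have h2 := zmod2_add_self (y c)
    have h3 := zmod2_add_self (y d)
    by_cases hxc : x = c
    · subst hxc
      rw [swap_apply_left]
      unfold E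
      rw [Pi.add_apply, Pi.single_eq_same, Pi.single_eq_of_ne hcd]
      linear_combination h1 - h2
    · by_cases hxd : x = d
      · subst hxd
        rw [swap_apply_right]
        unfold E
        rw [Pi.add_apply, Pi.single_eq_same, Pi.single_eq_of_ne hxc]
        linear_combination h1 - h3
      · rw [swap_apply_of_ne_of_ne hxc hxd]
        unfold E
        rw [Pi.add_apply, Pi.single_eq_of_ne hxc, Pi.single_eq_of_ne hxd]
        ring
  intro x
  have hsplit : l.prod = (l.take j).prod * (l[j] * (l.drop (j + 1)).prod) := by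
    rw [← List.prod_cons, ← List.drop_eq_getElem_cons hj, ← List.prod_append,
      List.take_append_drop]
  rw [hsplit, Equiv.Perm.mul_apply, Equiv.Perm.mul_apply,
    invariant_prod y (l.take j) ?_, hmid]
  · refine invariant_prod (fun x => y x + E c d x) (l.drop (j + 1)) ?_ x
    intro t ht x
    obtain ⟨k, hk, rfl⟩ := List.mem_iff_getElem.1 ht
    rw [List.getElem_drop]
    exact hhigh _ _ (by omega) x
  · intro t ht x
    obtain ⟨k, hk, rfl⟩ := List.mem_iff_getElem.1 ht
    rw [List.getElem_take]
    rw [List.length_take] at hk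
    exact hlow _ _ (by omega) x

/-- chords of a minimal factorisation of the standard cycle have vanishing linking number -/
theorem noncrossing {l : List (Equiv.Perm (Fin (m + 1)))} (hl : IsTree l m)
    (hprod : l.prod = finRotate (m + 1)) (a b c d : Fin (m + 1))
    (hab : a ≠ b ∧ swap a b ∈ l) (hcd : c ≠ d ∧ swap c d ∈ l)
    (hac : a ≠ c) (had : a ≠ d) (hbc : b ≠ c) (hbd : b ≠ d) : Lk (E a b) (E c d) = 0 := by
  classical
  obtain ⟨j, hj, hjs⟩ := List.mem_iff_getElem.1 hcd.2
  obtain ⟨k, hk, hks⟩ := List.mem_iff_getElem.1 hab.2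
  obtain ⟨y, hy, hlow, hhigh⟩ := chord_coloring hl hj hcd.1 hjs
  have hEa : E c d a = 0 := by
    unfold E
    rw [Pi.add_apply, Pi.single_eq_of_ne hac, Pi.single_eq_of_ne had, add_zero]
  have hEb : E c d b = 0 := by
    unfold E
    rw [Pi.add_apply, Pi.single_eq_of_ne hbc, Pi.single_eq_of_ne hbd, add_zero]
  have hyab : y a = y b := by
    rcases lt_trichotomy k j with h | h | h
    · have := hlow k hk h a
      rw [hks, swap_apply_left] at this
      exact this.symm
    · exfalso
      subst h
      have h1 : swap a b = swap c d := hks.symm.trans hjs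
      have h2 : swap a b a = swap c d a := by rw [h1]
      rw [swap_apply_left, swap_apply_of_ne_of_ne hac had] at h2
      exact hab.1 h2.symm
    · have := hhigh k hk h a
      rw [hks, swap_apply_left, hEa, hEb, add_zero, add_zero] at this
      exact this.symm
  have hval : ∀ (p : ℕ) (hp : p < m + 1), y ⟨p, hp⟩ =
      y 0 + ((if (c : ℕ) < p then 1 else 0) + (if (d : ℕ) < p then 1 else 0)) := by
    intro p
    induction p with
    | zero =>
      intro hp
      simp
    | succ p ih =>
      intro hp
      have h1 := hy ⟨p, by omega⟩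
      rw [hprod, finRotate_of_lt (show p < m by omega), ih (by omega)] at h1
      rw [h1]
      unfold E
      rw [Pi.add_apply, Pi.single_apply, Pi.single_apply]
      have h2 : ∀ e : Fin (m + 1), ((if (e : ℕ) < p + 1 then 1 else 0 : ZMod 2)) =
          (if (e : ℕ) < p then 1 else 0) + (if (⟨p, by omega⟩ : Fin (m + 1)) = e then 1 else 0) := by
        intro e
        rcases lt_trichotomy (e : ℕ) p with h | h | h
        · have h3 : ¬ (⟨p, by omega⟩ : Fin (m + 1)) = e := by
            intro h4; rw [← h4] at h; exact lt_irrefl _ h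
          simp [h, h3, Nat.lt_succ_of_lt h]
        · have h3 : (⟨p, by omega⟩ : Fin (m + 1)) = e := Fin.ext h.symm
          simp [h3, h]
        · have h3 : ¬ (⟨p, by omega⟩ : Fin (m + 1)) = e := by
            intro h4; rw [← h4] at h; exact lt_irrefl _ h
          have h4 : ¬ (e : ℕ) < p + 1 := by omega
          have h5 : ¬ (e : ℕ) < p := by omega
          simp [h3, h4, h5]
      rw [h2 c, h2 d]
      ring
  have hstrict : ∀ e f : Fin (m + 1), e ≠ f →
      (if f ≤ e then (1 : ZMod 2) else 0) = if (f : ℕ) < (e : ℕ) then 1 else 0 := by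
    intro e f hef
    have : f ≤ e ↔ (f : ℕ) < (e : ℕ) := by
      rw [← Fin.lt_def]
      exact ⟨fun h => lt_of_le_of_ne h hef.symm, fun h => h.le⟩
    simp only [this]
  have ha := hval a a.2
  have hb := hval b b.2
  simp only [Fin.eta] at ha hb
  unfold E
  rw [Lk_add_left, Lk_add_right, Lk_add_right, Lk_single, Lk_single, Lk_single, Lk_single,
    hstrict a c hac, hstrict a d had, hstrict b c hbc, hstrict b d hbd]
  have h0 := zmod2_add_self (y 0)
  have h1 := zmod2_add_self (y a)
  rw [hyab] at ha h1
  linear_combination h1 - ha - hb - h0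

end HurwitzDiam
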