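import Pool.Agent.Work.MP_f4aefe_co.Route

/-!
The number of inversions for an order and its reverse, bounded by vertex boundaries.
-/

namespace HurwitzDiam

open Finset Equiv

set_option linter.unusedSectionVars false

lemma card_lt_pairs (m : ℕ) :
    (((Icc 1 m) ×ˢ (Icc 1 m)).filter (fun q : ℕ × ℕ => q.1 < q.2)).card ≤ m.choose 2 := by
  have h : (((Icc 1 m) ×ˢ (Icc 1 m)).filter (fun q : ℕ × ℕ => q.1 < q.2)).card ≤
      (powersetCard 2 (Icc 1 m)).card := by
    refine card_le_card_of_injOn (fun q : ℕ × ℕ => ({q.1, q.2} : Finset ℕ)) ?_ ?_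
    · intro q hq
      rw [mem_coe, mem_filter, mem_product] at hq
      rw [mem_coe, mem_powersetCard]
      refine ⟨?_, card_pair hq.2.ne⟩
      intro x hx
      rw [mem_insert, mem_singleton] at hx
      rcases hx with rfl | rfl
      · exact hq.1.1
      · exact hq.1.2
    · intro q hq r hr h
      rw [mem_coe, mem_filter, mem_product] at hq hr
      have h1 : q.1 ∈ ({r.1, r.2} : Finset ℕ) := by
        have : ({q.1, q.2} : Finset ℕ) = {r.1, r.2} := h
        rw [← this]; simp
      have h2 : q.2 ∈ ({r.1, r.2} : Finset ℕ) := by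
        have : ({q.1, q.2} : Finset ℕ) = {r.1, r.2} := h
        rw [← this]; simp
      have h3 : r.1 ∈ ({q.1, q.2} : Finset ℕ) := by
        have : ({q.1, q.2} : Finset ℕ) = {r.1, r.2} := h
        rw [this]; simp
      rw [mem_insert, mem_singleton] at h1 h2 h3
      have h4 := hq.2
      have h5 := hr.2
      refine Prod.ext ?_ ?_ <;> omega
  rw [card_powersetCard, Nat.card_Icc, Nat.add_sub_cancel] at h
  exact h

/-- the counting part, for two sequences of positions -/
lemma count_nested (m : ℕ) (α β : ℕ → ℕ)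
    (hα : ∀ j ∈ Icc 1 m, ∀ k ∈ Icc 1 m, α j = α k → j = k)
    (hβ : ∀ j ∈ Icc 1 m, ∀ k ∈ Icc 1 m, β j = β k → j = k)
    (hαm : ∀ j ∈ Icc 1 m, α j ≤ m) (hβm : ∀ j ∈ Icc 1 m, β j ≤ m)
    (hα1 : ∀ j ∈ Icc 1 m, 1 ≤ α j)
    (hβs : ∀ b < m, ∃ j ∈ Icc 1 m, β j = b) :
    (((Icc 1 m) ×ˢ (Icc 1 m)).filter (fun q : ℕ × ℕ => q.1 < q.2 ∧ α q.2 < α q.1)).card +
    (((Icc 1 m) ×ˢ (Icc 1 m)).filter (fun q : ℕ × ℕ => q.1 < q.2 ∧ β q.1 < β q.2)).card ≤
    m.choose 2 + 2 * ∑ z ∈ range m, ((Icc 1 m).filter (fun k => β k ≤ z ∧ z < α k)).card := by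
  classical
  set J := Icc 1 m with hJ
  set A := (J ×ˢ J).filter (fun q : ℕ × ℕ => q.1 < q.2 ∧ α q.2 < α q.1) with hA
  set B := (J ×ˢ J).filter (fun q : ℕ × ℕ => q.1 < q.2 ∧ β q.1 < β q.2) with hB
  have h1 : A.card + B.card = (A ∪ B).card + (A ∩ B).card := (card_union_add_card_inter A B).symm
  have h2 : (A ∪ B).card ≤ m.choose 2 := by
    refine (card_le_card ?_).trans (card_lt_pairs m)
    intro q hq
    rw [mem_union, hA, hB, mem_filter, mem_filter] at hq
    rw [mem_filter]
    rcases hq with hq | hq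
    · exact ⟨hq.1, hq.2.1⟩
    · exact ⟨hq.1, hq.2.1⟩
  have h3 : (A ∩ B).card ≤
      ∑ z ∈ range m, (J.filter (fun k => α k ≤ z ∧ z < β k)).card +
      ∑ z ∈ range m, (J.filter (fun k => β k ≤ z ∧ z < α k)).card := by
    have hmemAB : ∀ q, q ∈ A ∩ B → q.1 ∈ J ∧ q.2 ∈ J ∧ q.1 < q.2 ∧ α q.2 < α q.1 ∧ β q.1 < β q.2 := by
      intro q hq
      rw [mem_inter, hA, hB, mem_filter, mem_filter, mem_product] at hq
      exact ⟨hq.1.1.1, hq.1.1.2, hq.1.2.1, hq.1.2.2, hq.2.2.2⟩
    rw [← card_filter_add_card_filter_not (s := A ∩ B) (fun q : ℕ × ℕ => α q.1 < β q.2)]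
    rw [← card_sigma, ← card_sigma]
    refine Nat.add_le_add ?_ ?_
    · refine card_le_card_of_injOn (fun q : ℕ × ℕ => (⟨α q.1, q.2⟩ : (_ : ℕ) × ℕ)) ?_ ?_
      · intro q hq
        rw [mem_coe, mem_filter] at hq
        obtain ⟨a1, a2, a3, a4, a5⟩ := hmemAB q hq.1
        rw [mem_coe, mem_sigma, mem_filter, mem_range]
        have := hβm _ a2
        exact ⟨lt_of_lt_of_le hq.2 this, a2, a4.le, hq.2⟩
      · intro q hq r hr h
        rw [mem_coe, mem_filter] at hq hr
        obtain ⟨a1, a2, -⟩ := hmemAB q hq.1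
        obtain ⟨b1, b2, -⟩ := hmemAB r hr.1
        simp only [Sigma.mk.injEq, heq_eq_eq] at h
        exact Prod.ext (hα _ a1 _ b1 h.1) h.2
    · refine card_le_card_of_injOn (fun q : ℕ × ℕ => (⟨β q.2 - 1, q.1⟩ : (_ : ℕ) × ℕ)) ?_ ?_
      · intro q hq
        rw [mem_coe, mem_filter] at hq
        obtain ⟨a1, a2, a3, a4, a5⟩ := hmemAB q hq.1
        rw [mem_coe, mem_sigma, mem_filter, mem_range]
        have h5 := hαm _ a1
        have h6 := hq.2
        simp only
        refine ⟨by omega, a1, by omega, by omega⟩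
      · intro q hq r hr h
        rw [mem_coe, mem_filter] at hq hr
        obtain ⟨a1, a2, -, -, a5⟩ := hmemAB q hq.1
        obtain ⟨b1, b2, -, -, b5⟩ := hmemAB r hr.1
        simp only [Sigma.mk.injEq, heq_eq_eq] at h
        exact Prod.ext h.2 (hβ _ a2 _ b2 (by omega))
  have h4 : ∀ z ∈ range m, (J.filter (fun k => α k ≤ z ∧ z < β k)).card ≤
      (J.filter (fun k => β k ≤ z ∧ z < α k)).card := by
    intro z hz
    rw [mem_range] at hz
    have e1 : J.filter (fun k => α k ≤ z ∧ z < β k) =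
        (J.filter (fun k => α k ≤ z)) \ (J.filter (fun k => β k ≤ z)) := by
      ext k
      simp only [mem_filter, mem_sdiff, not_and, not_le]
      constructor
      · rintro ⟨a, b, c⟩; exact ⟨⟨a, b⟩, fun _ => c⟩
      · rintro ⟨⟨a, b⟩, c⟩; exact ⟨a, b, c a⟩
    have e2 : J.filter (fun k => β k ≤ z ∧ z < α k) =
        (J.filter (fun k => β k ≤ z)) \ (J.filter (fun k => α k ≤ z)) := by
      ext k
      simp only [mem_filter, mem_sdiff, not_and, not_le]
      constructor
      · rintro ⟨a, b, c⟩; exact ⟨⟨a, b⟩, fun _ => c⟩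
      · rintro ⟨⟨a, b⟩, c⟩; exact ⟨a, b, c a⟩
    rw [e1, e2, card_sdiff_le_card_sdiff_iff]
    have e3 : (J.filter (fun k => α k ≤ z)).card ≤ z := by
      have : (J.filter (fun k => α k ≤ z)).card ≤ (Icc 1 z).card := by
        refine card_le_card_of_injOn α ?_ ?_
        · intro k hk
          rw [mem_coe, mem_filter] at hk
          rw [mem_coe, mem_Icc]
          exact ⟨hα1 k hk.1, hk.2⟩
        · intro k hk k' hk' h
          rw [mem_coe, mem_filter] at hk hk'
          exact hα k hk.1 k' hk'.1 h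
      rwa [Nat.card_Icc, Nat.add_sub_cancel] at this
    have e4 : z + 1 ≤ (J.filter (fun k => β k ≤ z)).card := by
      have hsub : range (z + 1) ⊆ (J.filter (fun k => β k ≤ z)).image β := by
        intro b hb
        rw [mem_range] at hb
        obtain ⟨j, hj, hjb⟩ := hβs b (by omega)
        exact mem_image.2 ⟨j, mem_filter.2 ⟨hj, by omega⟩, hjb⟩
      have := (card_le_card hsub).trans card_image_le
      rwa [card_range] at this
    omega
  have h5 := sum_le_sum h4
  omega

variable {V : Type*} [DecidableEq V] [Fintype V]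

/-- points of the prefix with a neighbour in the suffix -/
noncomputable def Sz (G : V → V → Prop) (pos : V → ℕ) (z : ℕ) : Finset V := by
  classical exact univ.filter (fun v => pos v ≤ z ∧ ∃ w, z < pos w ∧ G v w)

lemma mem_Sz {G : V → V → Prop} {pos : V → ℕ} {z : ℕ} {v : V} :
    v ∈ Sz G pos z ↔ pos v ≤ z ∧ ∃ w, z < pos w ∧ G v w := by
  classical
  simp [Sz]

theorem excess_bound {l : List (Equiv.Perm V)} {m : ℕ} (hl : IsTree l m)
    (hm : Fintype.card V = m + 1) {pos : V → ℕ} (hpos : Function.Injective pos)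
    (hposm : ∀ v, pos v ≤ m) (G : V → V → Prop)
    (hG : ∀ a b, a ≠ b → swap a b ∈ l → G a b) :
    (Inv l pos).card + (Inv l (fun v => m - pos v)).card ≤
      m.choose 2 + 2 * ∑ z ∈ range m, (Sz G pos z).card := by
  classical
  set pos' : V → ℕ := fun v => m - pos v with hpos'
  have hposi' : Function.Injective pos' := by
    intro v w h
    have h1 := hposm v
    have h2 := hposm w
    simp only [hpos'] at h
    exact hpos (by omega)
  have hne : Nonempty V := by
    rw [← Fintype.card_pos_iff, hm]; omega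
  have hpt : ∀ j, ∃ p, j ≤ m → lab l pos p = j := by
    intro j
    by_cases hj : j ≤ m
    · obtain ⟨p, hp⟩ := lab_surj hl hm hpos hj
      exact ⟨p, fun _ => hp⟩
    · exact ⟨Classical.arbitrary V, fun h => absurd h hj⟩
  have hpt' : ∀ j, ∃ p, j ≤ m → lab l pos' p = j := by
    intro j
    by_cases hj : j ≤ m
    · obtain ⟨p, hp⟩ := lab_surj hl hm hposi' hj
      exact ⟨p, fun _ => hp⟩
    · exact ⟨Classical.arbitrary V, fun h => absurd h hj⟩
  choose pt hpt using hpt
  choose pt' hpt' using hpt'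
  have hinj := lab_inj hl hpos
  have hinj' := lab_inj hl hposi'
  have hptlab : ∀ p, pt (lab l pos p) = p := fun p => hinj (hpt _ (lab_le hl pos p))
  have hptlab' : ∀ p, pt' (lab l pos' p) = p := fun p => hinj' (hpt' _ (lab_le hl pos' p))
  have hpossurj : ∀ b ≤ m, ∃ v, pos v = b := by
    have h1 : (univ : Finset V).image pos = range (m + 1) := by
      apply Finset.eq_of_subset_of_card_le
      · intro k hk
        obtain ⟨p, -, rfl⟩ := mem_image.1 hk
        exact mem_range.2 (Nat.lt_succ_of_le (hposm p))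
      · rw [card_image_of_injective _ hpos, card_range, card_univ, hm]
    intro b hb
    have h2 : b ∈ (univ : Finset V).image pos := by
      rw [h1]; exact mem_range.2 (Nat.lt_succ_of_le hb)
    obtain ⟨p, -, hp⟩ := mem_image.1 h2
    exact ⟨p, hp⟩
  have hcount := count_nested m (fun j => pos (pt j)) (fun j => pos (pt' j))
    (by
      intro j hj k hk h
      rw [mem_Icc] at hj hk
      have h1 := hpos h
      rw [← hpt j hj.2, ← hpt k hk.2, h1])
    (by
      intro j hj k hk h
      rw [mem_Icc] at hj hk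
      have h1 := hpos h
      rw [← hpt' j hj.2, ← hpt' k hk.2, h1])
    (fun j _ => hposm _) (fun j _ => hposm _)
    (by
      intro j hj
      rw [mem_Icc] at hj
      by_contra hcon
      have h0 : pos (pt j) = 0 := by omega
      have h1 := lab_min (l := l) (pos := pos) (p := pt j) (by intro q; omega)
      rw [hpt j hj.2] at h1
      omega)
    (by
      intro b hb
      obtain ⟨v, hv⟩ := hpossurj b hb.le
      obtain ⟨w, hw⟩ := hpossurj m le_rfl
      have h1 : pos' w < pos' v := by
        simp only [hpos']; omega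
      refine ⟨lab l pos' v, ?_, ?_⟩
      · rw [mem_Icc]
        exact ⟨lab_pos hl h1, lab_le hl pos' v⟩
      · simp only [hptlab', hv])
  have e1 : (Inv l pos).card ≤ (((Icc 1 m) ×ˢ (Icc 1 m)).filter
      (fun q : ℕ × ℕ => q.1 < q.2 ∧ pos (pt q.2) < pos (pt q.1))).card := by
    refine card_le_card_of_injOn (fun q => (lab l pos q.2, lab l pos q.1)) ?_ ?_
    · intro q hq
      rw [mem_coe, mem_Inv] at hq
      rw [mem_coe, mem_filter, mem_product, mem_Icc, mem_Icc]
      simp only [hptlab]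
      have h1 := lab_pos hl hq.1
      exact ⟨⟨⟨h1, lab_le hl pos _⟩, ⟨by omega, lab_le hl pos _⟩⟩, hq.2, hq.1⟩
    · intro q _ r _ h
      simp only [Prod.mk.injEq] at h
      exact Prod.ext (hinj h.2) (hinj h.1)
  have e2 : (Inv l pos').card ≤ (((Icc 1 m) ×ˢ (Icc 1 m)).filter
      (fun q : ℕ × ℕ => q.1 < q.2 ∧ pos (pt' q.1) < pos (pt' q.2))).card := by
    refine card_le_card_of_injOn (fun q => (lab l pos' q.2, lab l pos' q.1)) ?_ ?_
    · intro q hq
      rw [mem_coe, mem_Inv] at hq
      rw [mem_coe, mem_filter, mem_product, mem_Icc, mem_Icc]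
      simp only [hptlab']
      have h1 := lab_pos hl hq.1
      have h2 := hq.1
      simp only [hpos'] at h2
      exact ⟨⟨⟨h1, lab_le hl pos' _⟩, ⟨by omega, lab_le hl pos' _⟩⟩, hq.2, by omega⟩
    · intro q _ r _ h
      simp only [Prod.mk.injEq] at h
      exact Prod.ext (hinj' h.2) (hinj' h.1)
  have e3 : ∀ z ∈ range m,
      ((Icc 1 m).filter (fun k => pos (pt' k) ≤ z ∧ z < pos (pt k))).card ≤ (Sz G pos z).card := by
    intro z _
    have hend : ∀ k, ∃ ab : V × V, k ∈ (Icc 1 m).filter (fun k => pos (pt' k) ≤ z ∧ z < pos (pt k)) →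
        (ab.1 ≠ ab.2 ∧ swap ab.1 ab.2 ∈ l ∧ Rel (l.take k) ab.1 ab.2 ∧
          (∀ x, Rel (l.take (k - 1)) ab.1 x → pos x ≤ z) ∧
          (∀ x, Rel (l.take (k - 1)) ab.2 x → z < pos x)) := by
      intro k
      by_cases hk : k ∈ (Icc 1 m).filter (fun k => pos (pt' k) ≤ z ∧ z < pos (pt k))
      swap
      · exact ⟨(Classical.arbitrary V, Classical.arbitrary V), fun h => absurd h hk⟩
      rw [mem_filter, mem_Icc] at hk
      obtain ⟨⟨hk1, hkm⟩, hkβ, hkα⟩ := hk
      obtain ⟨j, rfl⟩ : ∃ j, k = j + 1 := ⟨k - 1, by omega⟩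
      obtain ⟨a, b, hab, habl, hs⟩ := take_succ_swap hl (show j < m by omega)
      have hp := hpt (j + 1) hkm
      have hp' := hpt' (j + 1) hkm
      have hsp := lab_spec hl hp
      have hsp' := lab_spec hl hp'
      obtain ⟨hmin, hcase⟩ := new_label hs hsp.1 hsp.2
      obtain ⟨hmin', hcase'⟩ := new_label hs hsp'.1 hsp'.2
      have hrel : Rel (l.take (j + 1)) a b := by
        rw [hs]
        have h := rel_letter (l := l.take j ++ [swap a b]) (t := swap a b) (by simp) a
        rwa [swap_apply_left] at h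
      rw [Nat.add_sub_cancel]
      have hnot : ¬ Rel (l.take j) (pt (j + 1)) (pt' (j + 1)) := by
        intro h
        have := hmin _ h
        omega
      have hp'x : ∀ x, Rel (l.take j) (pt' (j + 1)) x → pos x ≤ z := by
        intro x hx
        have h1 := hmin' x hx
        have h2 := hposm x
        have h3 := hposm (pt' (j + 1))
        simp only [hpos'] at h1
        omega
      have hpx : ∀ x, Rel (l.take j) (pt (j + 1)) x → z < pos x := by
        intro x hx
        exact lt_of_lt_of_le hkα (hmin x hx)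
      rcases hcase with ⟨h1, -⟩ | ⟨h1, -⟩
      · rcases hcase' with ⟨h2, -⟩ | ⟨h2, -⟩
        · exact absurd (h1.trans h2.symm) hnot
        · refine ⟨(b, a), fun _ => ⟨hab.symm, ?_, hrel.symm, ?_, ?_⟩⟩
          · rw [swap_comm]; exact habl
          · intro x hx; exact hp'x x (h2.trans hx)
          · intro x hx; exact hpx x (h1.trans hx)
      · rcases hcase' with ⟨h2, -⟩ | ⟨h2, -⟩
        · refine ⟨(a, b), fun _ => ⟨hab, habl, hrel, ?_, ?_⟩⟩
          · intro x hx; exact hp'x x (h2.trans hx)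
          · intro x hx; exact hpx x (h1.trans hx)
        · exact absurd (h1.trans h2.symm) hnot
    choose e he using hend
    refine card_le_card_of_injOn (fun k => (e k).1) ?_ ?_
    · intro k hk
      rw [mem_coe] at hk
      obtain ⟨h1, h2, h3, h4, h5⟩ := he k hk
      rw [mem_coe, mem_Sz]
      exact ⟨h4 _ (Rel.refl _ _), (e k).2, h5 _ (Rel.refl _ _), hG _ _ h1 h2⟩
    · have hlt : ∀ k ∈ (Icc 1 m).filter (fun k => pos (pt' k) ≤ z ∧ z < pos (pt k)),
          ∀ k' ∈ (Icc 1 m).filter (fun k => pos (pt' k) ≤ z ∧ z < pos (pt k)),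
          k < k' → (e k).1 = (e k').1 → False := by
        intro k hk k' hk' hkk h
        obtain ⟨-, -, h3, -, h5⟩ := he k hk
        obtain ⟨-, -, -, h4', -⟩ := he k' hk'
        have h6 : Rel (l.take (k' - 1)) (e k').1 (e k).2 := by
          rw [← h]
          exact h3.mono (List.take_prefix_take_left (by omega)).subset
        have h7 := h4' _ h6
        have h8 := h5 _ (Rel.refl _ _)
        omega
      intro k hk k' hk' h
      rw [mem_coe] at hk hk'
      rcases lt_trichotomy k k' with h1 | h1 | h1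
      · exact (hlt k hk k' hk' h1 h).elim
      · exact h1
      · exact (hlt k' hk' k hk h1 h.symm).elim
  have e4 := sum_le_sum e3
  omega

end HurwitzDiam
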