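import Pool.Agent.Work.MP_f4aefe_co.Uniq

/-!
A word of the standard cycle exists; a word without inversions for the reversed order has
all inversions for the natural order.
-/

namespace HurwitzDiam

open Finset Equiv

set_option linter.unusedSectionVars false

variable {m : ℕ}

/-- a minimal factorisation exists -/
lemma exists_word (m : ℕ) : ∃ w : List (Equiv.Perm (Fin (m + 1))), w.length = m ∧
    (∀ t ∈ w, ∃ a b, a ≠ b ∧ t = swap a b) ∧ w.prod = finRotate (m + 1) := by
  refine ⟨List.zipWith swap (List.finRange (m + 1)) (List.finRange (m + 1)).tail, ?_, ?_, ?_⟩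
  · simp
  · intro t ht
    obtain ⟨k, hk, rfl⟩ := List.mem_iff_getElem.1 ht
    rw [List.length_zipWith, List.length_tail, List.length_finRange] at hk
    refine ⟨⟨k, by omega⟩, ⟨k + 1, by omega⟩, ?_, ?_⟩
    · intro h
      have := congrArg Fin.val h
      simp at this
    · rw [List.getElem_zipWith, List.getElem_tail, List.getElem_finRange, List.getElem_finRange]
      rfl
  · change (List.finRange (m + 1)).formPerm = finRotate (m + 1)
    ext i
    have hi : (i : ℕ) < (List.finRange (m + 1)).length := by
      rw [List.length_finRange]; exact i.2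
    have h := List.formPerm_apply_getElem (List.finRange (m + 1)) (List.nodup_finRange _) i hi
    rw [List.getElem_finRange, List.getElem_finRange] at h
    have h2 : (Fin.cast (List.length_finRange) (⟨i, hi⟩ : Fin (List.finRange (m + 1)).length)) = i := rfl
    rw [h2] at h
    rw [h, finRotate_apply, Fin.val_add]
    simp

/-- every word for the standard cycle is a tree word -/
lemma isTree_of_prod {l : List (Equiv.Perm (Fin (m + 1)))} (hlen : l.length = m)
    (hsw : ∀ t ∈ l, ∃ a b, a ≠ b ∧ t = swap a b) (hprod : l.prod = finRotate (m + 1)) :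
    IsTree l m := by
  refine ⟨hlen, hsw, ?_⟩
  have h0 : ∀ (k : ℕ) (hk : k < m + 1), Rel l 0 ⟨k, hk⟩ := by
    intro k
    induction k with
    | zero => intro _; exact Rel.refl _ _
    | succ k ih =>
      intro hk
      have h1 := rel_prod l ⟨k, by omega⟩
      rw [hprod, finRotate_of_lt (show k < m by omega)] at h1
      exact (ih (by omega)).trans h1
  intro x y
  exact (h0 x x.2).symm.trans (h0 y y.2)

/-- the reversed positions -/
def rpos (m : ℕ) (v : Fin (m + 1)) : ℕ := m - (v : ℕ)

lemma rpos_inj : Function.Injective (rpos m) := by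
  intro v w h
  unfold rpos at h
  have h1 := v.2
  have h2 := w.2
  exact Fin.ext (by omega)

lemma many_inv {l : List (Equiv.Perm (Fin (m + 1)))} (hl : IsTree l m)
    (hinv : Inv l (rpos m) = ∅) : m.choose 2 ≤ (Inv l (fun v : Fin (m + 1) => (v : ℕ))).card := by
  classical
  have hcard : Fintype.card (Fin (m + 1)) = m + 1 := by simp
  have hlab : ∀ p : Fin (m + 1), lab l (rpos m) p = m - (p : ℕ) := by
    intro p
    rw [lab_eq_rank hl hcard rpos_inj hinv]
    have h1 : (univ.filter (fun q : Fin (m + 1) => rpos m q < rpos m p)) = Finset.Ioi p := by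
      ext q
      rw [mem_filter, mem_Ioi, Fin.lt_def]
      unfold rpos
      have h1 := q.2
      have h2 := p.2
      constructor
      · rintro ⟨-, h⟩; omega
      · intro h; exact ⟨mem_univ _, by omega⟩
    rw [h1, Fin.card_Ioi]
    omega
  -- everything above p is joined after m - p letters
  have htop : ∀ (k : ℕ) (p : Fin (m + 1)), m - (p : ℕ) = k → Rel (l.take (m - (p : ℕ))) p (Fin.last m) := by
    intro k
    induction k using Nat.strong_induction_on with
    | _ k ih =>
    intro p hp
    rcases Nat.lt_or_ge (p : ℕ) m with h | h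
    · have h1 : lab l (rpos m) p = (m - (p : ℕ) - 1) + 1 := by rw [hlab]; omega
      obtain ⟨-, q, hq, hr⟩ := lab_spec hl h1
      have h2 : m - (p : ℕ) - 1 + 1 = m - (p : ℕ) := by omega
      rw [h2] at hr
      unfold rpos at hq
      have h3 := ih (m - (q : ℕ)) (by omega) q rfl
      exact hr.trans (h3.mono (List.take_prefix_take_left (by omega)).subset)
    · have h1 : p = Fin.last m := by
        apply Fin.ext
        rw [Fin.val_last]
        have := p.2
        omega
      rw [h1]
      exact Rel.refl _ _
  set id' : Fin (m + 1) → ℕ := fun v => (v : ℕ) with hid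
  have hup : ∀ q : Fin (m + 1), 1 ≤ (q : ℕ) → lab l id' q ≤ m - (q : ℕ) + 1 := by
    intro q hq
    have hq2 := q.2
    let r : Fin (m + 1) := ⟨(q : ℕ) - 1, by omega⟩
    have hr : id' r < id' q := by
      simp only [hid, r]; omega
    rw [lab_le_iff hl hr]
    refine ⟨r, hr, ?_⟩
    have h1 := htop _ q rfl
    have h2 := htop _ r rfl
    have h3 : m - (r : ℕ) = m - (q : ℕ) + 1 := by
      simp only [r]; omega
    rw [h3] at h2
    exact (h1.mono (List.take_prefix_take_left (by omega)).subset).trans h2.symm
  have hlow : ∀ p : Fin (m + 1), 1 ≤ (p : ℕ) → m - (p : ℕ) < lab l id' p := by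
    intro p hp
    have hp2 := p.2
    let r0 : Fin (m + 1) := ⟨0, by omega⟩
    have hr0 : id' r0 < id' p := by
      simp only [hid, r0]; omega
    by_contra hcon
    push Not at hcon
    rw [lab_le_iff hl hr0] at hcon
    obtain ⟨r, hr, hrel⟩ := hcon
    simp only [hid] at hr
    have h1 : lab l (rpos m) r = (m - (r : ℕ) - 1) + 1 := by rw [hlab]; omega
    have h2 : Rel (l.take (m - (r : ℕ) - 1)) r p :=
      (hrel.mono (List.take_prefix_take_left (by omega)).subset).symm
    have h3 := singleton_class hl rpos_inj hinv h1 h2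
    rw [h3] at hr
    exact lt_irrefl _ hr
  have hmem : ∀ p q : Fin (m + 1), 1 ≤ (p : ℕ) → (p : ℕ) < (q : ℕ) → (p, q) ∈ Inv l id' := by
    intro p q hp hpq
    rw [mem_Inv]
    refine ⟨hpq, ?_⟩
    have h1 := hup q (by omega)
    have h2 := hlow p hp
    have h3 := q.2
    simp only
    omega
  have hS : (powersetCard 2 (univ.erase (0 : Fin (m + 1)))).card = m.choose 2 := by
    rw [card_powersetCard, card_erase_of_mem (mem_univ _), card_univ, hcard, Nat.add_sub_cancel]
  rw [← hS]
  refine card_le_card_of_surjOn (fun q : Fin (m + 1) × Fin (m + 1) => ({q.1, q.2} : Finset (Fin (m + 1)))) ?_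
  intro s hs
  rw [mem_coe, mem_powersetCard] at hs
  obtain ⟨hs1, hs2⟩ := hs
  obtain ⟨x, y, hxy, rfl⟩ := card_eq_two.1 hs2
  have hx : x ≠ 0 := (mem_erase.1 (hs1 (by simp))).1
  have hy : y ≠ 0 := (mem_erase.1 (hs1 (by simp))).1
  have hx1 : 1 ≤ (x : ℕ) := by
    rw [Nat.one_le_iff_ne_zero]; exact fun h => hx (Fin.ext h)
  have hy1 : 1 ≤ (y : ℕ) := by
    rw [Nat.one_le_iff_ne_zero]; exact fun h => hy (Fin.ext h)
  rcases lt_or_gt_of_ne hxy with h | h
  · exact ⟨(x, y), hmem x y hx1 h, rfl⟩
  · refine ⟨(y, x), hmem y x hy1 h, ?_⟩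
    simp only
    exact pair_comm y x

end HurwitzDiam
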