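import Pool.Agent.Work.MP_f4aefe_co.Sep

/-!
Orders with small vertex boundary, from the separator theorem.
-/

namespace HurwitzDiam

open Finset

set_option linter.unusedSectionVars false

variable {V : Type*} [DecidableEq V]

/-- number of points of the prefix with a neighbour in the suffix -/
noncomputable def bdry (G : V → V → Prop) (p q : List V) : Finset V := by
  classical exact p.toFinset.filter (fun v => ∃ w ∈ q, G v w)

lemma mem_bdry {G : V → V → Prop} {p q : List V} {v : V} :
    v ∈ bdry G p q ↔ v ∈ p ∧ ∃ w ∈ q, G v w := by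
  classical
  simp [bdry]

/-- an ordering of a set with all boundaries bounded -/
def Good (G : V → V → Prop) (l : List V) (S : Finset V) (b : ℝ) : Prop :=
  l.Nodup ∧ l.toFinset = S ∧ ∀ p q, l = p ++ q → ((bdry G p q).card : ℝ) ≤ b

lemma glue_order {G : V → V → Prop} (hs : ∀ a b, G a b → G b a) (b : ℝ) (hb : 0 ≤ b) :
    ∀ (n : ℕ) (U : Finset V), U.card = n →
      (∀ S, S ⊆ U → Conn G S → ∃ l, Good G l S b) → ∃ l, Good G l U b := by
  intro n
  induction n using Nat.strong_induction_on with
  | _ n ih =>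
  intro U hU hsmall
  rcases U.eq_empty_or_nonempty with rfl | ⟨u, hu⟩
  · refine ⟨[], List.nodup_nil, by simp, ?_⟩
    intro p q hpq
    have hp : p = [] := (List.append_eq_nil_iff.1 hpq.symm).1
    subst hp
    simpa [bdry] using hb
  · obtain ⟨l₁, hl₁n, hl₁s, hl₁b⟩ := hsmall (comp G U u) comp_sub (comp_conn hs hu)
    have huC : u ∈ comp G U u := mem_comp.2 ⟨hu, Relation.ReflTransGen.refl⟩
    have hlt : (U \ comp G U u).card < n := by
      rw [← hU]
      apply card_lt_card
      refine ⟨sdiff_subset, ?_⟩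
      intro h
      exact (mem_sdiff.1 (h hu)).2 huC
    obtain ⟨l₂, hl₂n, hl₂s, hl₂b⟩ := ih _ hlt (U \ comp G U u) rfl
      (fun S hS => hsmall S (hS.trans sdiff_subset))
    have hm₁ : ∀ x, x ∈ l₁ ↔ x ∈ comp G U u := by
      intro x; rw [← hl₁s, List.mem_toFinset]
    have hm₂ : ∀ x, x ∈ l₂ ↔ x ∈ U ∧ x ∉ comp G U u := by
      intro x; rw [← mem_sdiff, ← hl₂s, List.mem_toFinset]
    refine ⟨l₁ ++ l₂, ?_, ?_, ?_⟩
    · rw [List.nodup_append]
      refine ⟨hl₁n, hl₂n, ?_⟩
      intro x hx y hy hxy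
      subst hxy
      exact ((hm₂ x).1 hy).2 ((hm₁ x).1 hx)
    · rw [List.toFinset_append, hl₁s, hl₂s]
      exact union_sdiff_of_subset comp_sub
    · intro p q hpq
      rcases List.append_eq_append_iff.1 hpq with ⟨a', hp, hq⟩ | ⟨c', hp, hq⟩
      · refine le_trans ?_ (hl₂b a' q hq)
        norm_cast
        apply card_le_card
        intro v hv
        rw [mem_bdry] at hv ⊢
        obtain ⟨hvp, w, hw, hvw⟩ := hv
        have hw2 : w ∈ l₂ := by rw [hq]; exact List.mem_append_right _ hw
        rw [hp, List.mem_append] at hvp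
        rcases hvp with hvp | hvp
        · exfalso
          exact ((hm₂ w).1 hw2).2
            (comp_closed v ((hm₁ v).1 hvp) w ((hm₂ w).1 hw2).1 hvw)
        · exact ⟨hvp, w, hw, hvw⟩
      · refine le_trans ?_ (hl₁b p c' hp)
        norm_cast
        apply card_le_card
        intro v hv
        rw [mem_bdry] at hv ⊢
        obtain ⟨hvp, w, hw, hvw⟩ := hv
        refine ⟨hvp, ?_⟩
        rw [hq, List.mem_append] at hw
        rcases hw with hw | hw
        · exact ⟨w, hw, hvw⟩
        · exfalso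
          have hv1 : v ∈ l₁ := by rw [hp]; exact List.mem_append_left _ hvp
          exact ((hm₂ w).1 hw).2 (comp_closed v ((hm₁ v).1 hv1) w ((hm₂ w).1 hw).1 hvw)

lemma sqrt_step (n : ℕ) (hn : 1 ≤ n) :
    (5 * (Nat.sqrt (5 * n) + 1) : ℝ) + 56 * √((n : ℝ) / 2) ≤ 56 * √(n : ℝ) := by
  have hn1 : (1 : ℝ) ≤ n := by exact_mod_cast hn
  have h1 : (Nat.sqrt (5 * n) : ℝ) ≤ √5 * √(n : ℝ) := by
    rw [← Real.sqrt_mul (by norm_num)]
    have h := Real.nat_sqrt_le_real_sqrt (a := 5 * n)
    push_cast at h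
    exact h
  have h5 : √(5 : ℝ) ≤ 2.237 := by
    rw [Real.sqrt_le_left (by norm_num)]
    norm_num
  have h2 : √((n : ℝ) / 2) ≤ 0.7072 * √(n : ℝ) := by
    rw [Real.sqrt_le_left (by positivity), mul_pow, Real.sq_sqrt (by positivity)]
    nlinarith
  have h3 : (1 : ℝ) ≤ √(n : ℝ) := by
    rw [Real.one_le_sqrt]
    exact hn1
  have h4 : √5 * √(n : ℝ) ≤ 2.237 * √(n : ℝ) := mul_le_mul_of_nonneg_right h5 (by positivity)
  nlinarith

theorem exists_order {G : V → V → Prop} (hs : ∀ a b, G a b → G b a)
    (h5 : ∀ 𝒞 : Finset (Finset V), Covey G 𝒞 → 𝒞.card ≤ 4) :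
    ∀ (n : ℕ) (W : Finset V), W.card = n → ∃ l, Good G l W (56 * √(n : ℝ)) := by
  intro n
  induction n using Nat.strong_induction_on with
  | _ n ih =>
  intro W hW
  rcases Nat.eq_zero_or_pos n with hn | hn
  · subst hn
    rw [card_eq_zero] at hW
    subst hW
    refine ⟨[], List.nodup_nil, by simp, ?_⟩
    intro p q hpq
    have hp : p = [] := (List.append_eq_nil_iff.1 hpq.symm).1
    subst hp
    simp [bdry]
  · have hr : 5 * W.card ≤ (Nat.sqrt (5 * n) + 1) * (Nat.sqrt (5 * n) + 1) := by
      rw [hW]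
      exact (Nat.lt_succ_sqrt (5 * n)).le
    obtain ⟨X, hXW, hXc, hXS⟩ := exists_sep hs h5 W (Nat.sqrt (5 * n) + 1) hr (by omega)
    obtain ⟨l, hln, hls, hlb⟩ := glue_order hs (56 * √((n : ℝ) / 2)) (by positivity) _ (W \ X) rfl (by
      intro S hS hSc
      have hSn := hXS S hS hSc
      rw [hW] at hSn
      have hSlt : S.card < n := by
        have := card_pos.2 hSc.1
        omega
      obtain ⟨l, h1, h2, h3⟩ := ih S.card hSlt S rfl
      refine ⟨l, h1, h2, ?_⟩
      intro p q hpq
      refine (h3 p q hpq).trans ?_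
      refine mul_le_mul_of_nonneg_left ?_ (by norm_num)
      apply Real.sqrt_le_sqrt
      have : (2 * S.card : ℝ) ≤ n := by exact_mod_cast hSn
      linarith)
    have hml : ∀ x, x ∈ l ↔ x ∈ W ∧ x ∉ X := by
      intro x; rw [← mem_sdiff, ← hls, List.mem_toFinset]
    refine ⟨X.toList ++ l, ?_, ?_, ?_⟩
    · rw [List.nodup_append]
      refine ⟨X.nodup_toList, hln, ?_⟩
      intro x hx y hy hxy
      subst hxy
      exact ((hml x).1 hy).2 (mem_toList.1 hx)
    · rw [List.toFinset_append, hls, toList_toFinset]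
      exact union_sdiff_of_subset hXW
    · intro p q hpq
      have hXc' : (X.card : ℝ) ≤ 5 * (Nat.sqrt (5 * n) + 1) := by exact_mod_cast hXc
      have hstep := sqrt_step n hn
      rcases List.append_eq_append_iff.1 hpq with ⟨a', hp, hq⟩ | ⟨c', hp, hq⟩
      · have h1 : bdry G p q ⊆ X ∪ bdry G a' q := by
          intro v hv
          rw [mem_bdry] at hv
          rw [mem_union, mem_bdry]
          obtain ⟨hvp, w, hw, hvw⟩ := hv
          rw [hp, List.mem_append, mem_toList] at hvp
          rcases hvp with hvp | hvp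
          · exact Or.inl hvp
          · exact Or.inr ⟨hvp, w, hw, hvw⟩
        have h2 : ((bdry G p q).card : ℝ) ≤ X.card + (bdry G a' q).card := by
          exact_mod_cast (card_le_card h1).trans (card_union_le _ _)
        have h3 := hlb a' q hq
        linarith
      · have h1 : bdry G p q ⊆ X := by
          intro v hv
          rw [mem_bdry] at hv
          rw [← mem_toList, hp]
          exact List.mem_append_left _ hv.1
        have h2 : ((bdry G p q).card : ℝ) ≤ X.card := by exact_mod_cast card_le_card h1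
        have h4 : (0 : ℝ) ≤ 56 * √((n : ℝ) / 2) := by positivity
        linarith

end HurwitzDiam
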