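import Mathlib

/-!
Merging processes given by lists of transpositions; labels of points with respect to a
position function.
-/

namespace HurwitzDiam

open Finset Equiv

set_option linter.unusedSectionVars false

variable {V : Type*} [DecidableEq V]

/-- the orbit relation generated by the letters of a list -/
def Rel (l : List (Equiv.Perm V)) : V → V → Prop :=
  Relation.EqvGen (fun x y => ∃ t ∈ l, t x = y)

lemma Rel.refl (l : List (Equiv.Perm V)) (x : V) : Rel l x x := Relation.EqvGen.refl x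

lemma Rel.symm {l : List (Equiv.Perm V)} {x y : V} (h : Rel l x y) : Rel l y x :=
  Relation.EqvGen.symm _ _ h

lemma Rel.trans {l : List (Equiv.Perm V)} {x y z : V} (h : Rel l x y) (h' : Rel l y z) :
    Rel l x z := Relation.EqvGen.trans _ _ _ h h'

lemma rel_letter {l : List (Equiv.Perm V)} {t : Equiv.Perm V} (ht : t ∈ l) (x : V) :
    Rel l x (t x) := Relation.EqvGen.rel _ _ ⟨t, ht, rfl⟩

lemma rel_of_letters {l l' : List (Equiv.Perm V)} (h : ∀ t ∈ l', ∀ x, Rel l x (t x)) {x y : V}
    (hxy : Rel l' x y) : Rel l x y := by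
  induction hxy with
  | rel x y hr =>
    obtain ⟨t, ht, rfl⟩ := hr
    exact h t ht x
  | refl x => exact Rel.refl _ _
  | symm x y _ ih => exact ih.symm
  | trans x y z _ _ ih1 ih2 => exact ih1.trans ih2

lemma Rel.mono {l l' : List (Equiv.Perm V)} (h : l ⊆ l') {x y : V} (hxy : Rel l x y) :
    Rel l' x y := rel_of_letters (fun t ht x => rel_letter (h ht) x) hxy

lemma rel_nil {x y : V} (h : Rel ([] : List (Equiv.Perm V)) x y) : x = y := by
  induction h with
  | rel x y hr => obtain ⟨t, ht, -⟩ := hr; exact absurd ht (List.not_mem_nil)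
  | refl x => rfl
  | symm x y _ ih => exact ih.symm
  | trans x y z _ _ ih1 ih2 => exact ih1.trans ih2

lemma rel_prod (l : List (Equiv.Perm V)) (x : V) : Rel l x (l.prod x) := by
  induction l generalizing x with
  | nil => exact Rel.refl _ _
  | cons t l ih =>
    rw [List.prod_cons, Equiv.Perm.mul_apply]
    have h1 : Rel (t :: l) x (l.prod x) := (ih x).mono (List.subset_cons_self _ _)
    exact h1.trans (rel_letter (List.mem_cons_self) _)

/-- the relation of a list followed by a transposition -/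
lemma rel_append_swap {l : List (Equiv.Perm V)} {a b x y : V} :
    Rel (l ++ [swap a b]) x y ↔
      Rel l x y ∨ (Rel l x a ∧ Rel l b y) ∨ (Rel l x b ∧ Rel l a y) := by
  constructor
  · intro h
    induction h with
    | rel x y hr =>
      obtain ⟨t, ht, rfl⟩ := hr
      rw [List.mem_append, List.mem_singleton] at ht
      rcases ht with ht | rfl
      · exact Or.inl (rel_letter ht x)
      · by_cases hxa : x = a
        · subst hxa
          rw [swap_apply_left]
          exact Or.inr (Or.inl ⟨Rel.refl _ _, Rel.refl _ _⟩)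
        · by_cases hxb : x = b
          · subst hxb
            rw [swap_apply_right]
            exact Or.inr (Or.inr ⟨Rel.refl _ _, Rel.refl _ _⟩)
          · rw [swap_apply_of_ne_of_ne hxa hxb]
            exact Or.inl (Rel.refl _ _)
    | refl x => exact Or.inl (Rel.refl _ _)
    | symm x y _ ih =>
      rcases ih with h | ⟨h1, h2⟩ | ⟨h1, h2⟩
      · exact Or.inl h.symm
      · exact Or.inr (Or.inr ⟨h2.symm, h1.symm⟩)
      · exact Or.inr (Or.inl ⟨h2.symm, h1.symm⟩)
    | trans x y z _ _ ih1 ih2 =>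
      rcases ih1 with h | ⟨h1, h2⟩ | ⟨h1, h2⟩
      · rcases ih2 with k | ⟨k1, k2⟩ | ⟨k1, k2⟩
        · exact Or.inl (h.trans k)
        · exact Or.inr (Or.inl ⟨h.trans k1, k2⟩)
        · exact Or.inr (Or.inr ⟨h.trans k1, k2⟩)
      · rcases ih2 with k | ⟨k1, k2⟩ | ⟨k1, k2⟩
        · exact Or.inr (Or.inl ⟨h1, h2.trans k⟩)
        · exact Or.inr (Or.inl ⟨h1, k2⟩)
        · exact Or.inl (h1.trans k2)
      · rcases ih2 with k | ⟨k1, k2⟩ | ⟨k1, k2⟩
        · exact Or.inr (Or.inr ⟨h1, h2.trans k⟩)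
        · exact Or.inl (h1.trans k2)
        · exact Or.inr (Or.inr ⟨h1, k2⟩)
  · have hm : ∀ {x y : V}, Rel l x y → Rel (l ++ [swap a b]) x y :=
      fun h => h.mono (List.subset_append_left _ _)
    have hab : Rel (l ++ [swap a b]) a b := by
      have h := rel_letter (l := l ++ [swap a b]) (t := swap a b) (by simp) a
      rwa [swap_apply_left] at h
    rintro (h | ⟨h1, h2⟩ | ⟨h1, h2⟩)
    · exact hm h
    · exact ((hm h1).trans hab).trans (hm h2)
    · exact ((hm h1).trans hab.symm).trans (hm h2)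

/-- a point joined to a smaller point after j letters -/
def Sm (l : List (Equiv.Perm V)) (pos : V → ℕ) (j : ℕ) (p : V) : Prop :=
  ∃ q, pos q < pos p ∧ Rel (l.take j) p q

lemma Sm.mono {l : List (Equiv.Perm V)} {pos : V → ℕ} {j k : ℕ} (h : j ≤ k) {p : V}
    (hp : Sm l pos j p) : Sm l pos k p := by
  obtain ⟨q, hq, hr⟩ := hp
  refine ⟨q, hq, hr.mono ?_⟩
  exact (List.take_prefix_take_left h).subset

/-- label of a point: the time when it is joined to a smaller point, zero for the first point -/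
noncomputable def lab (l : List (Equiv.Perm V)) (pos : V → ℕ) (p : V) : ℕ :=
  sInf {j | Sm l pos j p}

/-- a word of m transpositions connecting m+1 points -/
structure IsTree (l : List (Equiv.Perm V)) (m : ℕ) : Prop where
  len : l.length = m
  swp : ∀ t ∈ l, ∃ a b, a ≠ b ∧ t = swap a b
  tot : ∀ x y, Rel l x y

lemma sm_zero {l : List (Equiv.Perm V)} {pos : V → ℕ} {p : V} : ¬ Sm l pos 0 p := by
  rintro ⟨q, hq, hr⟩
  rw [List.take_zero] at hr
  have := rel_nil hr
  subst this
  exact lt_irrefl _ hq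

lemma sm_len {l : List (Equiv.Perm V)} {m : ℕ} (hl : IsTree l m) {pos : V → ℕ} {p q : V}
    (hq : pos q < pos p) : Sm l pos m p := by
  refine ⟨q, hq, ?_⟩
  rw [List.take_of_length_le hl.len.le]
  exact hl.tot p q

lemma lab_le_iff {l : List (Equiv.Perm V)} {m : ℕ} (hl : IsTree l m) {pos : V → ℕ} {p q : V}
    (hq : pos q < pos p) (j : ℕ) : lab l pos p ≤ j ↔ Sm l pos j p := by
  have hne : {j | Sm l pos j p}.Nonempty := ⟨m, sm_len hl hq⟩
  constructor
  · intro h
    have h1 : Sm l pos (lab l pos p) p := Nat.sInf_mem hne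
    exact h1.mono h
  · intro h
    exact Nat.sInf_le h

lemma lab_pos {l : List (Equiv.Perm V)} {m : ℕ} (hl : IsTree l m) {pos : V → ℕ} {p q : V}
    (hq : pos q < pos p) : 1 ≤ lab l pos p := by
  by_contra h
  have h0 : lab l pos p ≤ 0 := by omega
  exact sm_zero ((lab_le_iff hl hq 0).1 h0)

lemma lab_min {l : List (Equiv.Perm V)} {pos : V → ℕ} {p : V}
    (hp : ∀ q, ¬ pos q < pos p) : lab l pos p = 0 := by
  have : {j | Sm l pos j p} = ∅ := by
    ext j
    simp only [Set.mem_setOf_eq, Set.mem_empty_iff_false, iff_false]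
    rintro ⟨q, hq, -⟩
    exact hp q hq
  rw [lab, this, Nat.sInf_empty]

lemma lab_le {l : List (Equiv.Perm V)} {m : ℕ} (hl : IsTree l m) (pos : V → ℕ) (p : V) :
    lab l pos p ≤ m := by
  by_cases h : ∃ q, pos q < pos p
  · obtain ⟨q, hq⟩ := h
    exact (lab_le_iff hl hq m).2 (sm_len hl hq)
  · push Not at h
    rw [lab_min (fun q => not_lt.2 (h q))]
    exact Nat.zero_le _

lemma lab_spec {l : List (Equiv.Perm V)} {m : ℕ} (hl : IsTree l m) {pos : V → ℕ} {p : V} {j : ℕ}
    (hj : lab l pos p = j + 1) : ¬ Sm l pos j p ∧ Sm l pos (j + 1) p := by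
  have hex : ∃ q, pos q < pos p := by
    by_contra h
    push Not at h
    rw [lab_min (fun q => not_lt.2 (h q))] at hj
    omega
  obtain ⟨q, hq⟩ := hex
  refine ⟨fun h => ?_, (lab_le_iff hl hq _).1 hj.le⟩
  have := (lab_le_iff hl hq j).2 h
  omega

lemma take_succ_swap {l : List (Equiv.Perm V)} {m : ℕ} (hl : IsTree l m) {j : ℕ} (hj : j < m) :
    ∃ a b, a ≠ b ∧ swap a b ∈ l ∧ l.take (j + 1) = l.take j ++ [swap a b] := by
  have hj' : j < l.length := by rw [hl.len]; exact hj
  obtain ⟨a, b, hab, h⟩ := hl.swp _ (List.getElem_mem hj')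
  refine ⟨a, b, hab, ?_, ?_⟩
  · rw [← h]; exact List.getElem_mem hj'
  · rw [List.take_succ_eq_append_getElem hj', h]

/-- how a new label arises -/
lemma new_label {l : List (Equiv.Perm V)} {pos : V → ℕ} {p : V} {j : ℕ} {a b : V}
    (hab : l.take (j + 1) = l.take j ++ [swap a b]) (h1 : ¬ Sm l pos j p)
    (h2 : Sm l pos (j + 1) p) :
    (∀ x, Rel (l.take j) p x → pos p ≤ pos x) ∧
    ((Rel (l.take j) p a ∧ ∃ q, pos q < pos p ∧ Rel (l.take j) b q) ∨
     (Rel (l.take j) p b ∧ ∃ q, pos q < pos p ∧ Rel (l.take j) a q)) := by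
  refine ⟨fun x hx => ?_, ?_⟩
  · by_contra h
    exact h1 ⟨x, not_le.1 h, hx⟩
  · obtain ⟨q, hq, hr⟩ := h2
    rw [hab, rel_append_swap] at hr
    rcases hr with h | ⟨h, h'⟩ | ⟨h, h'⟩
    · exact absurd ⟨q, hq, h⟩ h1
    · exact Or.inl ⟨h, q, hq, h'⟩
    · exact Or.inr ⟨h, q, hq, h'⟩

lemma lab_inj {l : List (Equiv.Perm V)} {m : ℕ} (hl : IsTree l m) {pos : V → ℕ}
    (hpos : Function.Injective pos) : Function.Injective (lab l pos) := by
  intro p q hpq
  by_cases hp : ∃ x, pos x < pos p
  · obtain ⟨x, hx⟩ := hp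
    have h1 := lab_pos hl hx
    obtain ⟨j, hj⟩ : ∃ j, lab l pos p = j + 1 := ⟨lab l pos p - 1, by omega⟩
    have hjm : j < m := by have := lab_le hl pos p; omega
    obtain ⟨a, b, -, -, hab⟩ := take_succ_swap hl hjm
    have hsp := lab_spec hl hj
    have hsq := lab_spec hl (hpq.symm.trans hj)
    obtain ⟨hpmin, hp2⟩ := new_label hab hsp.1 hsp.2
    obtain ⟨hqmin, hq2⟩ := new_label hab hsq.1 hsq.2
    have hsame : Rel (l.take j) p q → p = q := by
      intro h
      exact hpos (le_antisymm (hpmin q h) (hqmin p h.symm))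
    rcases hp2 with ⟨hpa, p', hp', hbp'⟩ | ⟨hpb, p', hp', hap'⟩
    · rcases hq2 with ⟨hqa, q', hq', hbq'⟩ | ⟨hqb, q', hq', haq'⟩
      · exact hsame (hpa.trans hqa.symm)
      · have h3 := hqmin p' (hqb.trans hbp')
        have h4 := hpmin q' (hpa.trans haq')
        omega
    · rcases hq2 with ⟨hqa, q', hq', hbq'⟩ | ⟨hqb, q', hq', haq'⟩
      · have h3 := hqmin p' (hqa.trans hap')
        have h4 := hpmin q' (hpb.trans hbq')
        omega
      · exact hsame (hpb.trans hqb.symm)
  · push Not at hp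
    have h0 := lab_min (l := l) (pos := pos) (p := p) (fun x => not_lt.2 (hp x))
    have hq : ∀ x, ¬ pos x < pos q := by
      intro x hx
      have := lab_pos hl hx
      omega
    have h1 := hp q
    have h2 := not_lt.1 (hq p)
    exact hpos (le_antisymm h1 h2)

variable [Fintype V]

lemma lab_surj {l : List (Equiv.Perm V)} {m : ℕ} (hl : IsTree l m) (hm : Fintype.card V = m + 1)
    {pos : V → ℕ} (hpos : Function.Injective pos) {j : ℕ} (hj : j ≤ m) :
    ∃ p, lab l pos p = j := by
  have h1 : (univ : Finset V).image (lab l pos) = range (m + 1) := by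
    apply Finset.eq_of_subset_of_card_le
    · intro k hk
      obtain ⟨p, -, rfl⟩ := mem_image.1 hk
      exact mem_range.2 (Nat.lt_succ_of_le (lab_le hl pos p))
    · rw [card_image_of_injective _ (lab_inj hl hpos), card_range, card_univ, hm]
  have h2 : j ∈ (univ : Finset V).image (lab l pos) := by
    rw [h1]; exact mem_range.2 (Nat.lt_succ_of_le hj)
  obtain ⟨p, -, hp⟩ := mem_image.1 h2
  exact ⟨p, hp⟩

/-- the set of inversions of the labels with respect to the positions -/
noncomputable def Inv (l : List (Equiv.Perm V)) (pos : V → ℕ) : Finset (V × V) :=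
  univ.filter (fun q => pos q.1 < pos q.2 ∧ lab l pos q.2 < lab l pos q.1)

lemma mem_Inv {l : List (Equiv.Perm V)} {pos : V → ℕ} {q : V × V} :
    q ∈ Inv l pos ↔ pos q.1 < pos q.2 ∧ lab l pos q.2 < lab l pos q.1 := by
  simp [Inv]

end HurwitzDiam
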