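import Pool.Agent.Work.MP_f4aefe_co.Proc

/-!
Hurwitz moves, the change of labels, and the descent step: a word with inversions has a
Hurwitz neighbour with fewer inversions.
-/

namespace HurwitzDiam

open Finset Equiv

set_option linter.unusedSectionVars false

variable {V : Type*} [DecidableEq V]

/-- one Hurwitz move on a word -/
def Move (w w' : List (Equiv.Perm V)) : Prop :=
  ∃ (u v : List (Equiv.Perm V)) (s t : Equiv.Perm V), w = u ++ s :: t :: v ∧
    (w' = u ++ (s * t * s) :: s :: v ∨ w' = u ++ t :: (t * s * t) :: v)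

lemma rel_pair {u v : List (Equiv.Perm V)} {s t s' t' : Equiv.Perm V}
    (h1 : ∀ x, Rel [s, t] x (s' x)) (h2 : ∀ x, Rel [s, t] x (t' x)) {x y : V}
    (h : Rel (u ++ s' :: t' :: v) x y) : Rel (u ++ s :: t :: v) x y := by
  refine rel_of_letters ?_ h
  have hsub : [s, t] ⊆ u ++ s :: t :: v := by
    intro r hr
    simp only [List.mem_cons, List.not_mem_nil, or_false] at hr
    rcases hr with rfl | rfl <;> simp
  intro r hr x
  simp only [List.mem_append, List.mem_cons] at hr
  rcases hr with hr | rfl | rfl | hr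
  · exact rel_letter (by simp [hr]) x
  · exact (h1 x).mono hsub
  · exact (h2 x).mono hsub
  · exact rel_letter (by simp [hr]) x

/-- the two pairs generate the same relation -/
def SamePair (s t s' t' : Equiv.Perm V) : Prop :=
  ((∀ x, Rel [s, t] x (s' x)) ∧ (∀ x, Rel [s, t] x (t' x))) ∧
  ((∀ x, Rel [s', t'] x (s x)) ∧ (∀ x, Rel [s', t'] x (t x)))

lemma samePair_left {s t : Equiv.Perm V} (hs : s * s = 1) : SamePair s t (s * t * s) s := by
  have a1 : ∀ x, Rel [s, t] x (s x) := fun x => rel_letter (by simp) x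
  have a2 : ∀ x, Rel [s, t] x (t x) := fun x => rel_letter (by simp) x
  have b1 : ∀ x, Rel [s * t * s, s] x ((s * t * s) x) := fun x => rel_letter (by simp) x
  have b2 : ∀ x, Rel [s * t * s, s] x (s x) := fun x => rel_letter (by simp) x
  refine ⟨⟨fun x => ?_, a1⟩, ⟨b2, fun x => ?_⟩⟩
  · rw [Equiv.Perm.mul_apply, Equiv.Perm.mul_apply]
    exact ((a1 x).trans (a2 _)).trans (a1 _)
  · have h : t x = s ((s * t * s) (s x)) := by
      have h2 : s * (s * t * s) * s = t := by
        calc s * (s * t * s) * s = (s * s) * t * (s * s) := by group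
          _ = t := by rw [hs]; simp
      conv_lhs => rw [← h2]
      rfl
    rw [h]
    exact ((b2 x).trans (b1 _)).trans (b2 _)

lemma samePair_right {s t : Equiv.Perm V} (ht : t * t = 1) : SamePair s t t (t * s * t) := by
  have a1 : ∀ x, Rel [s, t] x (s x) := fun x => rel_letter (by simp) x
  have a2 : ∀ x, Rel [s, t] x (t x) := fun x => rel_letter (by simp) x
  have b1 : ∀ x, Rel [t, t * s * t] x (t x) := fun x => rel_letter (by simp) x
  have b2 : ∀ x, Rel [t, t * s * t] x ((t * s * t) x) := fun x => rel_letter (by simp) x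
  refine ⟨⟨a2, fun x => ?_⟩, ⟨fun x => ?_, b1⟩⟩
  · rw [Equiv.Perm.mul_apply, Equiv.Perm.mul_apply]
    exact ((a2 x).trans (a1 _)).trans (a2 _)
  · have h : s x = t ((t * s * t) (t x)) := by
      have h2 : t * (t * s * t) * t = s := by
        calc t * (t * s * t) * t = (t * t) * s * (t * t) := by group
          _ = s := by rw [ht]; simp
      conv_lhs => rw [← h2]
      rfl
    rw [h]
    exact ((b1 x).trans (b2 _)).trans (b1 _)

lemma rel_samePair {u v : List (Equiv.Perm V)} {s t s' t' : Equiv.Perm V}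
    (h : SamePair s t s' t') (x y : V) :
    Rel (u ++ s :: t :: v) x y ↔ Rel (u ++ s' :: t' :: v) x y :=
  ⟨fun k => rel_pair h.2.1 h.2.2 k, fun k => rel_pair h.1.1 h.1.2 k⟩

lemma take_high (u v : List (Equiv.Perm V)) (s t : Equiv.Perm V) (k : ℕ) :
    (u ++ s :: t :: v).take (u.length + 2 + k) = u ++ s :: t :: v.take k := by
  rw [List.take_append]
  have h1 : u.take (u.length + 2 + k) = u := List.take_of_length_le (by omega)
  have h2 : u.length + 2 + k - u.length = k + 2 := by omega
  rw [h1, h2]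
  rfl

/-- the prefix relations agree except at one place -/
def RelOff (l l' : List (Equiv.Perm V)) (i : ℕ) : Prop :=
  ∀ j, j ≠ i + 1 → ∀ x y, Rel (l.take j) x y ↔ Rel (l'.take j) x y

lemma relOff_of_pair {u v : List (Equiv.Perm V)} {s t s' t' : Equiv.Perm V}
    (h : SamePair s t s' t') : RelOff (u ++ s :: t :: v) (u ++ s' :: t' :: v) u.length := by
  intro j hj x y
  rcases Nat.lt_or_ge u.length j with hlt | hge
  · obtain ⟨k, rfl⟩ : ∃ k, j = u.length + 2 + k := ⟨j - (u.length + 2), by omega⟩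
    rw [take_high, take_high]
    exact rel_samePair h x y
  · rw [List.take_append_of_le_length hge, List.take_append_of_le_length hge]

lemma conj_swap {s : Equiv.Perm V} (hs : s * s = 1) (c d : V) :
    s * swap c d * s = swap (s c) (s d) := by
  rw [Equiv.mul_swap_eq_swap_mul, mul_assoc, hs, mul_one]

lemma swap_sq (a b : V) : swap a b * swap a b = 1 := Equiv.swap_mul_self a b

/-- the new word of a move is again a tree word -/
lemma isTree_pair {u v : List (Equiv.Perm V)} {s t s' t' : Equiv.Perm V} {m : ℕ}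
    (hl : IsTree (u ++ s :: t :: v) m) (h : SamePair s t s' t')
    (hs' : ∃ a b, a ≠ b ∧ s' = swap a b) (ht' : ∃ a b, a ≠ b ∧ t' = swap a b) :
    IsTree (u ++ s' :: t' :: v) m := by
  refine ⟨?_, ?_, ?_⟩
  · rw [← hl.len]; simp
  · intro r hr
    simp only [List.mem_append, List.mem_cons] at hr
    rcases hr with hr | rfl | rfl | hr
    · exact hl.swp r (by simp [hr])
    · exact hs'
    · exact ht'
    · exact hl.swp r (by simp [hr])
  · intro x y
    exact (rel_samePair h x y).1 (hl.tot x y)

/-- the two kinds of moves, packed -/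
lemma move_pack {u v : List (Equiv.Perm V)} {s t : Equiv.Perm V} {m : ℕ}
    (hl : IsTree (u ++ s :: t :: v) m) :
    (SamePair s t (s * t * s) s ∧ IsTree (u ++ (s * t * s) :: s :: v) m) ∧
    (SamePair s t t (t * s * t) ∧ IsTree (u ++ t :: (t * s * t) :: v) m) := by
  obtain ⟨a, b, hab, hs⟩ := hl.swp s (by simp)
  obtain ⟨c, d, hcd, ht⟩ := hl.swp t (by simp)
  have hs1 : s * s = 1 := by rw [hs]; exact swap_sq a b
  have ht1 : t * t = 1 := by rw [ht]; exact swap_sq c d
  refine ⟨⟨samePair_left hs1, isTree_pair hl (samePair_left hs1) ?_ ⟨a, b, hab, hs⟩⟩,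
    ⟨samePair_right ht1, isTree_pair hl (samePair_right ht1) ⟨c, d, hcd, ht⟩ ?_⟩⟩
  · refine ⟨s c, s d, fun h => hcd (s.injective h), ?_⟩
    conv_lhs => rw [ht]
    exact conj_swap hs1 c d
  · refine ⟨t a, t b, fun h => hab (t.injective h), ?_⟩
    conv_lhs => rw [hs]
    exact conj_swap ht1 a b

lemma sm_relOff {l l' : List (Equiv.Perm V)} {i : ℕ} (h : RelOff l l' i) {pos : V → ℕ} {j : ℕ}
    (hj : j ≠ i + 1) (p : V) : Sm l pos j p ↔ Sm l' pos j p := by
  unfold Sm
  exact exists_congr fun q => and_congr_right fun _ => h j hj p q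

lemma lab_change {l l' : List (Equiv.Perm V)} {m i : ℕ} (hl : IsTree l m) (hl' : IsTree l' m)
    (h : RelOff l l' i) (pos : V → ℕ) (p : V) :
    lab l' pos p = lab l pos p ∨ (lab l pos p = i + 1 ∧ lab l' pos p = i + 2) ∨
      (lab l pos p = i + 2 ∧ lab l' pos p = i + 1) := by
  by_cases hp : ∃ q, pos q < pos p
  · obtain ⟨q, hq⟩ := hp
    have key : ∀ j, j ≠ i + 1 → (lab l pos p ≤ j ↔ lab l' pos p ≤ j) := by
      intro j hj
      rw [lab_le_iff hl hq, lab_le_iff hl' hq, sm_relOff h hj]
    have k1 := key (lab l pos p)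
    have k2 := key (lab l' pos p)
    have k3 := key (lab l pos p - 1)
    have k4 := key (lab l' pos p - 1)
    have p1 := lab_pos hl hq
    have p2 := lab_pos hl' hq
    omega
  · left
    push Not at hp
    rw [lab_min (fun q => not_lt.2 (hp q)), lab_min (fun q => not_lt.2 (hp q))]

variable [Fintype V]

/-- inversions change by at most one -/
lemma inv_lipschitz {l l' : List (Equiv.Perm V)} {m i : ℕ} (hl : IsTree l m)
    (hl' : IsTree l' m) (h : RelOff l l' i) {pos : V → ℕ} (hpos : Function.Injective pos) :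
    (Inv l' pos).card ≤ (Inv l pos).card + 1 := by
  classical
  have hch := lab_change hl hl' h pos
  have hinj := lab_inj hl hpos
  have hnew : ∀ q ∈ Inv l' pos \ Inv l pos, lab l pos q.1 = i + 1 ∧ lab l pos q.2 = i + 2 := by
    intro q hq
    rw [mem_sdiff, mem_Inv, mem_Inv] at hq
    obtain ⟨⟨h1, h2⟩, h3⟩ := hq
    have h4 : ¬ lab l pos q.2 < lab l pos q.1 := fun h => h3 ⟨h1, h⟩
    have h5 : lab l pos q.1 ≠ lab l pos q.2 := by
      intro h
      rw [hinj h] at h1
      exact lt_irrefl _ h1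
    have h6 := hch q.1
    have h7 := hch q.2
    omega
  have hle : (Inv l' pos \ Inv l pos).card ≤ 1 := by
    rw [card_le_one]
    intro a ha b hb
    have ha' := hnew a ha
    have hb' := hnew b hb
    exact Prod.ext (hinj (ha'.1.trans hb'.1.symm)) (hinj (ha'.2.trans hb'.2.symm))
  have hsub : Inv l' pos ⊆ Inv l pos ∪ (Inv l' pos \ Inv l pos) := by
    intro q hq
    by_cases hq' : q ∈ Inv l pos
    · exact mem_union_left _ hq'
    · exact mem_union_right _ (mem_sdiff.2 ⟨hq, hq'⟩)
  have := (card_le_card hsub).trans (card_union_le _ _)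
  omega

/-- inversions drop at a repaired descent -/
lemma inv_drop {l l' : List (Equiv.Perm V)} {m i : ℕ} (hl : IsTree l m)
    (hl' : IsTree l' m) (h : RelOff l l' i) {pos : V → ℕ} (hpos : Function.Injective pos)
    {P Q : V} (hP : lab l pos P = i + 1) (hQ : lab l pos Q = i + 2) (hPQ : pos Q < pos P)
    (hQ' : lab l' pos Q = i + 1) : (Inv l' pos).card < (Inv l pos).card := by
  have hch := lab_change hl hl' h pos
  have hinj := lab_inj hl hpos
  have hinj' := lab_inj hl' hpos
  apply card_lt_card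
  rw [Finset.ssubset_iff_of_subset]
  · refine ⟨(Q, P), ?_, ?_⟩
    · rw [mem_Inv]
      simp only
      omega
    · rw [mem_Inv]
      simp only
      have h1 := hch P
      have h2 : lab l' pos P ≠ lab l' pos Q := by
        intro h
        rw [hinj' h] at hPQ
        exact lt_irrefl _ hPQ
      omega
  · intro q hq
    rw [mem_Inv] at hq ⊢
    obtain ⟨h1, h2⟩ := hq
    refine ⟨h1, ?_⟩
    by_contra h4
    have h5 : lab l pos q.1 ≠ lab l pos q.2 := by
      intro h
      rw [hinj h] at h1
      exact lt_irrefl _ h1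
    have h6 := hch q.1
    have h7 := hch q.2
    have h8 : lab l pos q.1 = i + 1 ∧ lab l pos q.2 = i + 2 := by omega
    have h9 : q.1 = P := hinj (h8.1.trans hP.symm)
    have h10 : q.2 = Q := hinj (h8.2.trans hQ.symm)
    rw [h9, h10] at h1
    omega

/-- without descents before K the positions increase along the labels up to K -/
lemma mono_of_no_desc {l : List (Equiv.Perm V)} {m : ℕ} (hl : IsTree l m)
    (hm : Fintype.card V = m + 1) {pos : V → ℕ} (hpos : Function.Injective pos) (K : ℕ)
    (hK : ∀ j < K, ¬ ∃ P Q, lab l pos P = j ∧ lab l pos Q = j + 1 ∧ pos Q < pos P) :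
    ∀ k ≤ K, ∀ p q, lab l pos p < lab l pos q → lab l pos q = k → pos p < pos q := by
  intro k
  induction k with
  | zero => intro _ p q h1 h2; omega
  | succ k ih =>
    intro hk p q h1 h2
    have hkm : k ≤ m := by have := lab_le hl pos q; omega
    obtain ⟨r, hr⟩ := lab_surj hl hm hpos hkm
    have h3 : pos r < pos q := by
      have h4 := hK k (by omega)
      have h5 : ¬ pos q < pos r := fun h => h4 ⟨r, q, hr, h2, h⟩
      have h6 : pos r ≠ pos q := by
        intro h
        have := hpos h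
        subst this
        omega
      omega
    rcases Nat.lt_or_ge (lab l pos p) k with h | h
    · exact (ih (by omega) p r (by omega) hr).trans h3
    · have : p = r := (lab_inj hl hpos) (by omega)
      subst this
      exact h3

/-- the core of the descent step -/
lemma core_step {u : List (Equiv.Perm V)} {P b c d Q q' p' : V} {pos : V → ℕ}
    (hA : ∀ x, Rel u P x → x = P) (hbP : b ≠ P) (hcd : c ≠ d)
    (hbp' : Rel u b p') (hp'P : pos p' < pos P)
    (hQc : Rel (u ++ [swap P b]) Q c) (hdq' : Rel (u ++ [swap P b]) d q')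
    (hQmin : ∀ x, Rel (u ++ [swap P b]) Q x → pos Q ≤ pos x)
    (hq' : pos q' < pos Q) (hPQ : pos Q < pos P) :
    (∃ x, pos x < pos Q ∧ Rel (u ++ [swap P b * swap c d * swap P b]) Q x) ∨
    (∃ x, pos x < pos Q ∧ Rel (u ++ [swap c d]) Q x) := by
  have hQP : Q ≠ P := by rintro rfl; exact lt_irrefl _ hPQ
  have hq'P : q' ≠ P := by rintro rfl; omega
  have hA' : ∀ x, Rel u x P → x = P := fun x h => hA x h.symm
  by_cases hcP : c = P
  · -- conjugate
    left
    subst hcP
    have hdc : d ≠ c := fun h => hcd h.symm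
    have hdb : d ≠ b := by
      rintro rfl
      have h1 : Rel (u ++ [swap c d]) c d := by
        have h := rel_letter (l := u ++ [swap c d]) (t := swap c d) (by simp) c
        rwa [swap_apply_left] at h
      have := hQmin q' ((hQc.trans h1).trans hdq')
      omega
    refine ⟨q', hq', ?_⟩
    rw [conj_swap (swap_sq c b), swap_apply_left, swap_apply_of_ne_of_ne hdc hdb,
      rel_append_swap]
    rw [rel_append_swap] at hQc hdq'
    have h1 : Rel u Q b := by
      rcases hQc with h | ⟨h, _⟩ | ⟨h, _⟩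
      · exact absurd (hA' Q h) hQP
      · exact absurd (hA' Q h) hQP
      · exact h
    have h2 : Rel u d q' := by
      rcases hdq' with h | ⟨h, _⟩ | ⟨_, h⟩
      · exact h
      · exact absurd (hA' d h) hdc
      · exact absurd (hA q' h) hq'P
    exact Or.inr (Or.inl ⟨h1, h2⟩)
  by_cases hdP : d = P
  · left
    subst hdP
    have hcb : c ≠ b := by
      rintro rfl
      have h1 : Rel (u ++ [swap d c]) c d := by
        have h := rel_letter (l := u ++ [swap d c]) (t := swap d c) (by simp) c
        rwa [swap_apply_right] at h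
      have := hQmin q' ((hQc.trans h1).trans hdq')
      omega
    refine ⟨q', hq', ?_⟩
    rw [conj_swap (swap_sq d b), swap_apply_left, swap_apply_of_ne_of_ne hcP hcb,
      rel_append_swap]
    rw [rel_append_swap] at hQc hdq'
    have h1 : Rel u Q c := by
      rcases hQc with h | ⟨h, _⟩ | ⟨_, h⟩
      · exact h
      · exact absurd (hA' Q h) hQP
      · exact absurd (hA c h) hcP
    have h2 : Rel u b q' := by
      rcases hdq' with h | ⟨_, h⟩ | ⟨_, h⟩
      · exact absurd (hA q' h) hq'P
      · exact h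
      · exact absurd (hA q' h) hq'P
    exact Or.inr (Or.inl ⟨h1, h2⟩)
  · right
    refine ⟨q', hq', ?_⟩
    rw [rel_append_swap] at hQc hdq' ⊢
    have h1 : Rel u Q c := by
      rcases hQc with h | ⟨h, _⟩ | ⟨_, h⟩
      · exact h
      · exact absurd (hA' Q h) hQP
      · exact absurd (hA c h) hcP
    have h2 : Rel u d q' := by
      rcases hdq' with h | ⟨h, _⟩ | ⟨_, h⟩
      · exact h
      · exact absurd (hA' d h) hdP
      · exact absurd (hA q' h) hq'P
    exact Or.inr (Or.inl ⟨h1, h2⟩)

lemma split_two {l : List (Equiv.Perm V)} {i : ℕ} (hi : i + 2 ≤ l.length) {s t : Equiv.Perm V}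
    (hs : l.take (i + 1) = l.take i ++ [s]) (ht : l.take (i + 2) = l.take (i + 1) ++ [t]) :
    l = l.take i ++ s :: t :: l.drop (i + 2) := by
  conv_lhs => rw [← List.take_append_drop (i + 2) l, ht, hs]
  simp

/-- a word with inversions has a Hurwitz neighbour with fewer inversions -/
theorem descent_step {l : List (Equiv.Perm V)} {m : ℕ} (hl : IsTree l m)
    (hm : Fintype.card V = m + 1) {pos : V → ℕ} (hpos : Function.Injective pos)
    (hinv : (Inv l pos).Nonempty) :
    ∃ l', Move l l' ∧ IsTree l' m ∧ (Inv l' pos).card < (Inv l pos).card := by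
  classical
  -- a descent exists
  have hex : ∃ j, ∃ P Q, lab l pos P = j ∧ lab l pos Q = j + 1 ∧ pos Q < pos P := by
    by_contra hcon
    push Not at hcon
    obtain ⟨q, hq⟩ := hinv
    rw [mem_Inv] at hq
    have := mono_of_no_desc hl hm hpos (lab l pos q.1) (by
      rintro j - ⟨P, Q, h1, h2, h3⟩
      exact absurd h3 (not_lt.2 (hcon j P Q h1 h2))) _ le_rfl q.2 q.1 hq.2 rfl
    omega
  obtain ⟨P, Q, hP, hQ, hPQ⟩ := Nat.find_spec hex
  have hfirst : ∀ j < Nat.find hex, ¬ ∃ P Q, lab l pos P = j ∧ lab l pos Q = j + 1 ∧ pos Q < pos P :=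
    fun j hj => Nat.find_min hex hj
  generalize Nat.find hex = j0 at hP hQ hfirst
  have hj0 : 1 ≤ j0 := by
    have := lab_pos hl hPQ
    omega
  obtain ⟨i, rfl⟩ : ∃ i, j0 = i + 1 := ⟨j0 - 1, by omega⟩
  have him : i + 2 ≤ m := by have := lab_le hl pos Q; omega
  have hmono := mono_of_no_desc hl hm hpos (i + 1) hfirst
  obtain ⟨a0, b0, hab0, -, hs0⟩ := take_succ_swap hl (show i < m by omega)
  obtain ⟨c0, d0, hcd0, -, ht0⟩ := take_succ_swap hl (show i + 1 < m by omega)
  have hsP := lab_spec hl hP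
  have hsQ := lab_spec hl hQ
  obtain ⟨hPmin, hP2⟩ := new_label hs0 hsP.1 hsP.2
  obtain ⟨hQmin, hQ2⟩ := new_label ht0 hsQ.1 hsQ.2
  have hA : ∀ x, Rel (l.take i) P x → x = P := by
    intro x hx
    by_contra hne
    have h1 : pos P ≤ pos x := hPmin x hx
    have h2 : pos P ≠ pos x := fun h => hne (hpos h.symm)
    have h3 : pos P < pos x := lt_of_le_of_ne h1 h2
    have h4 : lab l pos x ≤ i := (lab_le_iff hl h3 i).2 ⟨P, h3, hx.symm⟩
    have h5 := hmono (i + 1) le_rfl x P (by omega) hP
    omega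
  -- first letter
  obtain ⟨b, hbP, hs, p', hp'P, hbp'⟩ : ∃ b, b ≠ P ∧ l.take (i + 1) = l.take i ++ [swap P b] ∧
      ∃ p', pos p' < pos P ∧ Rel (l.take i) b p' := by
    rcases hP2 with ⟨h1, p', h2, h3⟩ | ⟨h1, p', h2, h3⟩
    · have := hA a0 h1
      subst this
      exact ⟨b0, hab0.symm, hs0, p', h2, h3⟩
    · have := hA b0 h1
      subst this
      exact ⟨a0, hab0, by rw [swap_comm]; exact hs0, p', h2, h3⟩
  -- second letter
  obtain ⟨c, d, hcd, ht, hQc, q', hq', hdq'⟩ : ∃ c d, c ≠ d ∧
      l.take (i + 2) = l.take (i + 1) ++ [swap c d] ∧ Rel (l.take (i + 1)) Q c ∧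
      ∃ q', pos q' < pos Q ∧ Rel (l.take (i + 1)) d q' := by
    rcases hQ2 with ⟨h1, q', h2, h3⟩ | ⟨h1, q', h2, h3⟩
    · exact ⟨c0, d0, hcd0, ht0, h1, q', h2, h3⟩
    · exact ⟨d0, c0, hcd0.symm, by rw [swap_comm]; exact ht0, h1, q', h2, h3⟩
  have hlen : i + 2 ≤ l.length := by rw [hl.len]; exact him
  have hsplit := split_two hlen hs ht
  have hulen : (l.take i).length = i := by
    rw [List.length_take]; omega
  have hl2 := hl
  rw [hsplit] at hl2
  obtain ⟨⟨hsp1, htr1⟩, ⟨hsp2, htr2⟩⟩ := move_pack hl2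
  rw [hs] at hQc hdq' hQmin
  have hfin : ∀ s' t' : Equiv.Perm V, SamePair (swap P b) (swap c d) s' t' →
      IsTree (l.take i ++ s' :: t' :: l.drop (i + 2)) m →
      (∃ x, pos x < pos Q ∧ Rel (l.take i ++ [s']) Q x) →
      (Inv (l.take i ++ s' :: t' :: l.drop (i + 2)) pos).card < (Inv l pos).card := by
    intro s' t' hsp htr ⟨x, hxQ, hx⟩
    have hoff := relOff_of_pair (u := l.take i) (v := l.drop (i + 2)) hsp
    rw [hulen, ← hsplit] at hoff
    have hle : lab (l.take i ++ s' :: t' :: l.drop (i + 2)) pos Q ≤ i + 1 := by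
      rw [lab_le_iff htr hxQ]
      refine ⟨x, hxQ, ?_⟩
      have : (l.take i ++ s' :: t' :: l.drop (i + 2)).take (i + 1) = l.take i ++ [s'] := by
        rw [List.take_append, List.take_of_length_le (by omega), hulen]
        simp
      rw [this]
      exact hx
    have hchQ := lab_change hl htr hoff pos Q
    exact inv_drop hl htr hoff hpos hP hQ hPQ (by omega)
  rcases core_step hA hbP hcd hbp' hp'P hQc hdq' hQmin hq' hPQ with h | h
  · exact ⟨_, ⟨l.take i, l.drop (i + 2), swap P b, swap c d, hsplit, Or.inl rfl⟩, htr1,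
      hfin _ _ hsp1 htr1 h⟩
  · exact ⟨_, ⟨l.take i, l.drop (i + 2), swap P b, swap c d, hsplit, Or.inr rfl⟩, htr2,
      hfin _ _ hsp2 htr2 h⟩

end HurwitzDiam
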