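import Mathlib

/-!
Separators of graphs without a five element covey (no K5 minor), after Alon, Seymour and
Thomas, in a finset form.
-/

namespace HurwitzDiam

open Finset

set_option linter.unusedSectionVars false

variable {V : Type*} [DecidableEq V]

/-- reachability inside a set -/
def Rin (G : V → V → Prop) (U : Finset V) : V → V → Prop :=
  Relation.ReflTransGen (fun x y => G x y ∧ x ∈ U ∧ y ∈ U)

/-- connected nonempty set -/
def Conn (G : V → V → Prop) (C : Finset V) : Prop :=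
  C.Nonempty ∧ ∀ a ∈ C, ∀ b ∈ C, Rin G C a b

lemma Rin.mono {G : V → V → Prop} {U U' : Finset V} (h : U ⊆ U') {a b : V}
    (hab : Rin G U a b) : Rin G U' a b := by
  induction hab with
  | refl => exact Relation.ReflTransGen.refl
  | tail _ h2 ih => exact ih.tail ⟨h2.1, h h2.2.1, h h2.2.2⟩

lemma Rin.symm {G : V → V → Prop} (hs : ∀ a b, G a b → G b a) {U : Finset V} {a b : V}
    (hab : Rin G U a b) : Rin G U b a := by
  induction hab with
  | refl => exact Relation.ReflTransGen.refl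
  | tail _ h2 ih => exact Relation.ReflTransGen.head ⟨hs _ _ h2.1, h2.2.2, h2.2.1⟩ ih

lemma conn_of_center {G : V → V → Prop} (hs : ∀ a b, G a b → G b a) {C : Finset V} {c : V}
    (hc : c ∈ C) (h : ∀ a ∈ C, Rin G C c a) : Conn G C :=
  ⟨⟨c, hc⟩, fun a ha b hb => ((h a ha).symm hs).trans (h b hb)⟩

lemma conn_singleton (G : V → V → Prop) (v : V) : Conn G {v} := by
  refine ⟨⟨v, by simp⟩, ?_⟩
  intro a ha b hb
  rw [mem_singleton] at ha hb
  subst ha; subst hb
  exact Relation.ReflTransGen.refl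

lemma conn_insert {G : V → V → Prop} (hs : ∀ a b, G a b → G b a) {C : Finset V} {u v : V}
    (hC : Conn G C) (hu : u ∈ C) (huv : G u v) : Conn G (insert v C) := by
  refine conn_of_center hs (c := u) (mem_insert_of_mem hu) ?_
  intro a ha
  rw [mem_insert] at ha
  rcases ha with ha | ha
  · subst ha
    exact Relation.ReflTransGen.single ⟨huv, mem_insert_of_mem hu, mem_insert_self _ _⟩
  · exact (hC.2 u hu a ha).mono (subset_insert _ _)

/-- a connected set walks inside every set closed under its steps -/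
lemma conn_induct {G : V → V → Prop} {S : Finset V} (hS : Conn G S) {a : V} (ha : a ∈ S)
    (p : V → Prop) (hp : p a) (hstep : ∀ x ∈ S, ∀ y ∈ S, G x y → p x → p y) :
    ∀ b ∈ S, p b := by
  intro b hb
  have h := hS.2 a ha b hb
  clear hb
  induction h with
  | refl => exact hp
  | tail _ h2 ih => exact hstep _ h2.2.1 _ h2.2.2 h2.1 ih

/-- the component of a point inside a set -/
noncomputable def comp (G : V → V → Prop) (U : Finset V) (a : V) : Finset V := by
  classical exact U.filter (fun b => Rin G U a b)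

lemma mem_comp {G : V → V → Prop} {U : Finset V} {a b : V} :
    b ∈ comp G U a ↔ b ∈ U ∧ Rin G U a b := by
  classical
  simp [comp]

lemma comp_sub {G : V → V → Prop} {U : Finset V} {a : V} : comp G U a ⊆ U :=
  fun _ hb => (mem_comp.1 hb).1

lemma comp_conn {G : V → V → Prop} (hs : ∀ a b, G a b → G b a) {U : Finset V} {a : V}
    (ha : a ∈ U) : Conn G (comp G U a) := by
  refine conn_of_center hs (c := a) (mem_comp.2 ⟨ha, Relation.ReflTransGen.refl⟩) ?_
  intro b hb
  have h := (mem_comp.1 hb).2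
  clear hb
  induction h with
  | refl => exact Relation.ReflTransGen.refl
  | tail h1 h2 ih =>
    refine Relation.ReflTransGen.tail ih ⟨h2.1, ?_, ?_⟩
    · exact mem_comp.2 ⟨h2.2.1, h1⟩
    · exact mem_comp.2 ⟨h2.2.2, h1.tail h2⟩

lemma comp_closed {G : V → V → Prop} {U : Finset V} {a : V} :
    ∀ x ∈ comp G U a, ∀ y ∈ U, G x y → y ∈ comp G U a := by
  intro x hx y hy hxy
  rw [mem_comp] at hx ⊢
  exact ⟨hy, hx.2.tail ⟨hxy, hx.1, hy⟩⟩

/-- Lemma: a small connected set meeting all the sets, or a small cut. -/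
lemma tree_or_cut {G : V → V → Prop} (hs : ∀ a b, G a b → G b a) (F : Finset V) (k r : ℕ)
    (hr : 1 ≤ r) (A : ℕ → Finset V) :
    (∃ T, T ⊆ F ∧ Conn G T ∧ T.card ≤ r ∧ ∀ i < k, (T ∩ A i).Nonempty) ∨
    (∃ Z, Z ⊆ F ∧ Z.card * r ≤ (k + 1) * F.card ∧
      ∀ S, S ⊆ F \ Z → Conn G S → ∃ i < k, ¬ (S ∩ A i).Nonempty) := by
  classical
  by_cases hleft : ∃ T, T ⊆ F ∧ Conn G T ∧ T.card ≤ r ∧ ∀ i < k, (T ∩ A i).Nonempty
  · exact Or.inl hleft
  right
  let P : ℕ → V → ℕ → Prop := fun i v s =>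
    ∃ T, T ⊆ F ∧ Conn G T ∧ v ∈ T ∧ T.card ≤ s ∧ ∀ j < i, (T ∩ A j).Nonempty
  have hex : ∀ i v, ∃ s, s = r + 1 ∨ P i v s := fun i v => ⟨r + 1, Or.inl rfl⟩
  let g : ℕ → V → ℕ := fun i v => Nat.find (hex i v)
  have hg_spec : ∀ i v, g i v = r + 1 ∨ P i v (g i v) := fun i v => Nat.find_spec (hex i v)
  have hg_le : ∀ i v s, P i v s → g i v ≤ s := fun i v s h => Nat.find_min' (hex i v) (Or.inr h)
  have hg_max : ∀ i v, g i v ≤ r + 1 := fun i v => Nat.find_min' (hex i v) (Or.inl rfl)
  have hg_step : ∀ i v w, w ∈ F → G v w → g i w ≤ g i v + 1 := by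
    intro i v w hw hvw
    rcases hg_spec i v with h | ⟨T, hTF, hTc, hvT, hTs, hTA⟩
    · rw [h]; exact (hg_max i w).trans (Nat.le_succ _)
    · refine hg_le i w _ ⟨insert w T, ?_, conn_insert hs hTc hvT hvw, mem_insert_self _ _, ?_, ?_⟩
      · intro x hx
        rw [mem_insert] at hx
        rcases hx with rfl | hx
        · exact hw
        · exact hTF hx
      · exact (card_insert_le _ _).trans (Nat.succ_le_succ hTs)
      · intro j hj
        obtain ⟨x, hx⟩ := hTA j hj
        rw [mem_inter] at hx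
        exact ⟨x, mem_inter.2 ⟨mem_insert_of_mem hx.1, hx.2⟩⟩
  have hg_up : ∀ i v, v ∈ A i → g (i + 1) v ≤ g i v := by
    intro i v hv
    rcases hg_spec i v with h | ⟨T, hTF, hTc, hvT, hTs, hTA⟩
    · rw [h]; exact hg_max _ _
    · refine hg_le _ _ _ ⟨T, hTF, hTc, hvT, hTs, ?_⟩
      intro j hj
      rcases Nat.lt_succ_iff_lt_or_eq.1 hj with h | h
      · exact hTA j h
      · subst h; exact ⟨v, mem_inter.2 ⟨hvT, hv⟩⟩
  have hg_zero : ∀ v ∈ F, g 0 v ≤ 1 := by
    intro v hv
    refine hg_le 0 v 1 ⟨{v}, by simpa using hv, conn_singleton G v, by simp, by simp, ?_⟩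
    intro j hj
    exact absurd hj (Nat.not_lt_zero j)
  -- pigeonhole
  let Q : Finset (ℕ × V) := (range (k + 1)) ×ˢ F
  have hQ : Q.card = (k + 1) * F.card := by simp [Q]
  obtain ⟨j, hj, hjc⟩ : ∃ j ∈ Finset.Icc 1 r,
      (Q.filter (fun q => g q.1 q.2 = j)).card * r ≤ (k + 1) * F.card := by
    by_contra hcon
    push Not at hcon
    have h1 : ∑ j ∈ Finset.Icc 1 r, (Q.filter (fun q => g q.1 q.2 = j)).card ≤ Q.card := by
      rw [← Finset.card_biUnion]
      · exact card_le_card (by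
          intro q hq
          rw [mem_biUnion] at hq
          obtain ⟨_, _, hq⟩ := hq
          exact (mem_filter.1 hq).1)
      · intro a _ b _ hab
        rw [Function.onFun, Finset.disjoint_left]
        intro q hqa hqb
        exact hab ((mem_filter.1 hqa).2.symm.trans (mem_filter.1 hqb).2)
    have h2 : ∑ j ∈ Finset.Icc 1 r, (k + 1) * F.card <
        ∑ j ∈ Finset.Icc 1 r, (Q.filter (fun q => g q.1 q.2 = j)).card * r := by
      apply Finset.sum_lt_sum_of_nonempty
      · exact ⟨1, by simp [hr]⟩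
      · intro j hj
        exact hcon j hj
    rw [← hQ, Finset.sum_const, Nat.card_Icc, Nat.add_sub_cancel, smul_eq_mul,
      ← Finset.sum_mul] at h2
    have h3 := Nat.mul_le_mul_right r h1
    rw [Nat.mul_comm r] at h2
    omega
  rw [Finset.mem_Icc] at hj
  refine ⟨(Q.filter (fun q => g q.1 q.2 = j)).image Prod.snd, ?_, ?_, ?_⟩
  · intro v hv
    rw [mem_image] at hv
    obtain ⟨q, hq, rfl⟩ := hv
    exact (mem_product.1 (mem_filter.1 hq).1).2
  · exact (Nat.mul_le_mul_right r card_image_le).trans hjc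
  · intro S hSF hS
    by_contra hcon
    push Not at hcon
    have hnotZ : ∀ i ≤ k, ∀ v ∈ S, g i v ≠ j := by
      intro i hi v hv hgv
      have hv' := mem_sdiff.1 (hSF hv)
      apply hv'.2
      rw [mem_image]
      refine ⟨(i, v), mem_filter.2 ⟨mem_product.2 ⟨?_, hv'.1⟩, hgv⟩, rfl⟩
      exact mem_range.2 (Nat.lt_succ_of_le hi)
    have hSF' : ∀ v ∈ S, v ∈ F := fun v hv => (mem_sdiff.1 (hSF hv)).1
    have key : ∀ i ≤ k, ∀ v ∈ S, g i v < j := by
      intro i
      induction i with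
      | zero =>
        intro hi v hv
        have h1 := hg_zero v (hSF' v hv)
        have h2 := hnotZ 0 hi v hv
        omega
      | succ i ih =>
        intro hi
        obtain ⟨a, ha⟩ := hcon i (by omega)
        rw [mem_inter] at ha
        have hga : g (i + 1) a < j := (hg_up i a ha.2).trans_lt (ih (by omega) a ha.1)
        refine conn_induct hS ha.1 (fun v => g (i + 1) v < j) hga ?_
        intro x _ y hy hxy hx
        have h1 := hg_step (i + 1) x y (hSF' y hy) hxy
        have h2 := hnotZ (i + 1) hi y hy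
        omega
    obtain ⟨v, hv⟩ := hS.1
    have hk := key k le_rfl v hv
    rcases hg_spec k v with h | ⟨T, hTF, hTc, hvT, hTs, hTA⟩
    · omega
    · exact hleft ⟨T, hTF, hTc, by omega, hTA⟩

/-- the same for a finite family indexed by a finset -/
lemma tree_or_cut' {G : V → V → Prop} (hs : ∀ a b, G a b → G b a) (F : Finset V) (r : ℕ)
    (hr : 1 ≤ r) {ι : Type*} (I : Finset ι) (A : ι → Finset V) :
    (∃ T, T ⊆ F ∧ Conn G T ∧ T.card ≤ r ∧ ∀ i ∈ I, (T ∩ A i).Nonempty) ∨
    (∃ Z, Z ⊆ F ∧ Z.card * r ≤ (I.card + 1) * F.card ∧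
      ∀ S, S ⊆ F \ Z → Conn G S → ∃ i ∈ I, ¬ (S ∩ A i).Nonempty) := by
  classical
  have hlen : I.toList.length = I.card := I.length_toList
  let B : ℕ → Finset V := fun i => if h : i < I.toList.length then A (I.toList[i]) else ∅
  rcases tree_or_cut hs F I.card r hr B with ⟨T, h1, h2, h3, h4⟩ | ⟨Z, h1, h2, h3⟩
  · left
    refine ⟨T, h1, h2, h3, ?_⟩
    intro i hi
    obtain ⟨n, hn, hni⟩ := List.mem_iff_getElem.1 (mem_toList.2 hi)
    have := h4 n (by omega)
    have hB : B n = A (I.toList[n]) := dif_pos hn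
    rwa [hB, hni] at this
  · right
    refine ⟨Z, h1, h2, ?_⟩
    intro S hS hSc
    obtain ⟨n, hn, hnS⟩ := h3 S hS hSc
    have hn' : n < I.toList.length := by omega
    refine ⟨I.toList[n], mem_toList.1 (List.getElem_mem hn'), ?_⟩
    have hB : B n = A (I.toList[n]) := dif_pos hn'
    rwa [hB] at hnS

/-- a covey: connected sets, pairwise disjoint, pairwise joined by an edge -/
def Covey (G : V → V → Prop) (𝒞 : Finset (Finset V)) : Prop :=
  (∀ C ∈ 𝒞, Conn G C) ∧
  (∀ C ∈ 𝒞, ∀ D ∈ 𝒞, C ≠ D → Disjoint C D ∧ ∃ c ∈ C, ∃ d ∈ D, G c d)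

/-- a flap: connected component of the set after removal of the separator -/
def Flap (G : V → V → Prop) (W X F : Finset V) : Prop :=
  F ⊆ W \ X ∧ Conn G F ∧ ∀ a ∈ F, ∀ b ∈ W \ X, G a b → b ∈ F

lemma sub_flap {G : V → V → Prop} {W X F S : Finset V} (hF : Flap G W X F)
    (hS : Conn G S) (hSW : S ⊆ W \ X) (hne : ¬ Disjoint S F) : S ⊆ F := by
  rw [Finset.not_disjoint_iff] at hne
  obtain ⟨a, haS, haF⟩ := hne
  intro b hb
  exact conn_induct hS haS (fun x => x ∈ F) haF
    (fun x _ y hy hxy hx => hF.2.2 x hx y (hSW hy) hxy) b hb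

lemma big_meet {W S F : Finset V} (hS : S ⊆ W) (hF : F ⊆ W) (h1 : W.card < 2 * S.card)
    (h2 : W.card < 2 * F.card) : ¬ Disjoint S F := by
  intro hd
  have h := card_union_of_disjoint hd
  have h3 := card_le_card (union_subset hS hF)
  omega

/-- the descent of Alon, Seymour and Thomas -/
lemma ast_descent {G : V → V → Prop} (hs : ∀ a b, G a b → G b a)
    (h5 : ∀ 𝒞 : Finset (Finset V), Covey G 𝒞 → 𝒞.card ≤ 4) (W : Finset V) (r : ℕ)
    (hr : 5 * W.card ≤ r * r) (hr1 : 1 ≤ r)
    (hbig : ∀ X, X ⊆ W → X.card ≤ 5 * r → ∃ F, Flap G W X F ∧ W.card < 2 * F.card) :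
    ∀ (N : ℕ) (𝒞 : Finset (Finset V)) (X F : Finset V), Covey G 𝒞 → (∀ C ∈ 𝒞, C ⊆ W) →
      X ⊆ 𝒞.biUnion id → (∀ C ∈ 𝒞, (X ∩ C).card ≤ r) → Flap G W X F →
      W.card < 2 * F.card → (∀ C ∈ 𝒞, Disjoint C F) →
      𝒞.card + X.card + 3 * F.card = N → False := by
  classical
  intro N
  induction N using Nat.strong_induction_on with
  | _ N ih =>
  intro 𝒞 X F hcov hW hXC hXr hF hFbig hdis hN
  have hXW : X ⊆ W := by
    intro x hx
    obtain ⟨C, hC, hxC⟩ := mem_biUnion.1 (hXC hx)
    exact hW C hC hxC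
  have hk4 : 𝒞.card ≤ 4 := h5 𝒞 hcov
  have hXcard : X.card ≤ 4 * r := by
    have h1 : X ⊆ 𝒞.biUnion (fun C => X ∩ C) := by
      intro x hx
      obtain ⟨C, hC, hxC⟩ := mem_biUnion.1 (hXC hx)
      exact mem_biUnion.2 ⟨C, hC, mem_inter.2 ⟨hx, hxC⟩⟩
    calc X.card ≤ (𝒞.biUnion (fun C => X ∩ C)).card := card_le_card h1
      _ ≤ 𝒞.card * r := card_biUnion_le_card_mul _ _ _ hXr
      _ ≤ 4 * r := Nat.mul_le_mul_right _ hk4
  have hFW : F ⊆ W := fun x hx => (mem_sdiff.1 (hF.1 hx)).1
  have hFX : Disjoint F X := by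
    rw [Finset.disjoint_left]
    exact fun x hx => (mem_sdiff.1 (hF.1 hx)).2
  -- Case A
  by_cases hA : ∃ C ∈ 𝒞, ¬ (X ∩ C).Nonempty
  · obtain ⟨C, hC, hXC0⟩ := hA
    have hcard : (𝒞.erase C).card = 𝒞.card - 1 := card_erase_of_mem hC
    have hpos : 1 ≤ 𝒞.card := card_pos.2 ⟨C, hC⟩
    refine ih ((𝒞.erase C).card + X.card + 3 * F.card) (by omega) (𝒞.erase C) X F ?_ ?_ ?_ ?_
      hF hFbig ?_ rfl
    · exact ⟨fun D hD => hcov.1 D (mem_of_mem_erase hD),
        fun D hD E hE => hcov.2 D (mem_of_mem_erase hD) E (mem_of_mem_erase hE)⟩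
    · exact fun D hD => hW D (mem_of_mem_erase hD)
    · intro x hx
      obtain ⟨D, hD, hxD⟩ := mem_biUnion.1 (hXC hx)
      refine mem_biUnion.2 ⟨D, mem_erase.2 ⟨?_, hD⟩, hxD⟩
      rintro rfl
      exact hXC0 ⟨x, mem_inter.2 ⟨hx, hxD⟩⟩
    · exact fun D hD => hXr D (mem_of_mem_erase hD)
    · exact fun D hD => hdis D (mem_of_mem_erase hD)
  push Not at hA
  let A : Finset V → Finset V := fun C => F.filter (fun v => ∃ c ∈ C, G c v)
  rcases tree_or_cut' hs F r hr1 𝒞 A with ⟨T, hTF, hTc, hTr, hTA⟩ | ⟨Z, hZF, hZr, hZcut⟩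
  · -- Case B
    have hTd : ∀ C ∈ 𝒞, Disjoint C T := fun C hC => (hdis C hC).mono_right hTF
    have hTn : T ∉ 𝒞 := by
      intro hT
      obtain ⟨t, ht⟩ := hTc.1
      exact (Finset.disjoint_left.1 (hTd T hT)) ht ht
    have hcov' : Covey G (insert T 𝒞) := by
      have hadj : ∀ C ∈ 𝒞, ∃ c ∈ C, ∃ t ∈ T, G c t := by
        intro C hC
        obtain ⟨t, ht⟩ := hTA C hC
        rw [mem_inter] at ht
        obtain ⟨c, hc, hct⟩ := (mem_filter.1 ht.2).2
        exact ⟨c, hc, t, ht.1, hct⟩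
      refine ⟨?_, ?_⟩
      · intro C hC
        rcases mem_insert.1 hC with rfl | hC
        · exact hTc
        · exact hcov.1 C hC
      · intro C hC D hD hCD
        rcases mem_insert.1 hC with hC1 | hC1
        · rcases mem_insert.1 hD with hD1 | hD1
          · exact absurd (hC1.trans hD1.symm) hCD
          · obtain ⟨c, hc, t, ht, hct⟩ := hadj D hD1
            rw [hC1]
            exact ⟨(hTd D hD1).symm, t, ht, c, hc, hs _ _ hct⟩
        · rcases mem_insert.1 hD with hD1 | hD1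
          · rw [hD1]
            exact ⟨hTd C hC1, hadj C hC1⟩
          · exact hcov.2 C hC1 D hD1 hCD
    have hc4 := h5 _ hcov'
    have hTW : T ⊆ W := hTF.trans hFW
    have hXT : (X ∪ T).card ≤ 5 * r := by
      have := card_union_le X T
      omega
    obtain ⟨F', hF', hF'big⟩ := hbig (X ∪ T) (union_subset hXW hTW) hXT
    have hF'W : F' ⊆ W := fun x hx => (mem_sdiff.1 (hF'.1 hx)).1
    have hF'X : F' ⊆ W \ X := by
      intro x hx
      have := mem_sdiff.1 (hF'.1 hx)
      exact mem_sdiff.2 ⟨this.1, fun h => this.2 (mem_union_left _ h)⟩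
    have hF'F : F' ⊆ F := sub_flap hF hF'.2.1 hF'X (big_meet hF'W hFW hF'big hFbig)
    have hF'T : F' ⊆ F \ T := by
      intro x hx
      have := mem_sdiff.1 (hF'.1 hx)
      exact mem_sdiff.2 ⟨hF'F hx, fun h => this.2 (mem_union_right _ h)⟩
    have hcF' : F'.card + T.card ≤ F.card := by
      have h1 := card_le_card hF'T
      rw [card_sdiff_of_subset hTF] at h1
      have h2 := card_le_card hTF
      omega
    have hT1 : 1 ≤ T.card := card_pos.2 hTc.1
    have hcX : (X ∪ T).card ≤ X.card + T.card := card_union_le X T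
    have hcC : (insert T 𝒞).card = 𝒞.card + 1 := card_insert_of_notMem hTn
    refine ih ((insert T 𝒞).card + (X ∪ T).card + 3 * F'.card) (by omega) (insert T 𝒞) (X ∪ T) F'
      hcov' ?_ ?_ ?_ hF' hF'big ?_ rfl
    · intro C hC
      rcases mem_insert.1 hC with rfl | hC
      · exact hTW
      · exact hW C hC
    · intro x hx
      rcases mem_union.1 hx with hx | hx
      · obtain ⟨D, hD, hxD⟩ := mem_biUnion.1 (hXC hx)
        exact mem_biUnion.2 ⟨D, mem_insert_of_mem hD, hxD⟩
      · exact mem_biUnion.2 ⟨T, mem_insert_self _ _, hx⟩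
    · intro C hC
      rcases mem_insert.1 hC with rfl | hC
      · refine (card_le_card ?_).trans hTr
        exact inter_subset_right
      · refine (card_le_card ?_).trans (hXr C hC)
        intro x hx
        rw [mem_inter] at hx ⊢
        refine ⟨?_, hx.2⟩
        rcases mem_union.1 hx.1 with h | h
        · exact h
        · exact absurd h (Finset.disjoint_left.1 (hTd C hC) hx.2)
    · intro C hC
      rcases mem_insert.1 hC with rfl | hC
      · rw [Finset.disjoint_left]
        intro x hx hx'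
        exact (mem_sdiff.1 (hF'T hx')).2 hx
      · exact (hdis C hC).mono_right hF'F
  · -- Case C
    have hZle : Z.card ≤ r := by
      have h1 : (𝒞.card + 1) * F.card ≤ 5 * W.card :=
        Nat.mul_le_mul (by omega) (card_le_card hFW)
      have h2 : Z.card * r ≤ r * r := hZr.trans (h1.trans hr)
      exact Nat.le_of_mul_le_mul_right h2 hr1
    have hZW : Z ⊆ W := hZF.trans hFW
    have hXZ : (X ∪ Z).card ≤ 5 * r := by
      have := card_union_le X Z
      omega
    obtain ⟨H, hH, hHbig⟩ := hbig (X ∪ Z) (union_subset hXW hZW) hXZ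
    have hHW : H ⊆ W := fun x hx => (mem_sdiff.1 (hH.1 hx)).1
    have hHX : H ⊆ W \ X := by
      intro x hx
      have := mem_sdiff.1 (hH.1 hx)
      exact mem_sdiff.2 ⟨this.1, fun h => this.2 (mem_union_left _ h)⟩
    have hHF : H ⊆ F := sub_flap hF hH.2.1 hHX (big_meet hHW hFW hHbig hFbig)
    have hHZ : H ⊆ F \ Z := by
      intro x hx
      have := mem_sdiff.1 (hH.1 hx)
      exact mem_sdiff.2 ⟨hHF hx, fun h => this.2 (mem_union_right _ h)⟩
    obtain ⟨C₁, hC₁, hC₁H⟩ := hZcut H hHZ hH.2.1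
    have hC₁F : Disjoint C₁ F := hdis C₁ hC₁
    let E : Finset V := (F \ H).filter (fun v => ∃ c ∈ C₁, ∃ u ∈ F \ H, G c u ∧ Rin G (F \ H) u v)
    have hEF : E ⊆ F \ H := filter_subset _ _
    let D : Finset V := C₁ ∪ E
    have hEmem : ∀ v, v ∈ F \ H → (∃ c ∈ C₁, G c v) → v ∈ E := by
      intro v hv ⟨c, hc, hcv⟩
      exact mem_filter.2 ⟨hv, c, hc, v, hv, hcv, Relation.ReflTransGen.refl⟩
    have hEclosed : ∀ v ∈ E, ∀ w ∈ F \ H, G v w → w ∈ E := by
      intro v hv w hw hvw
      obtain ⟨hv1, c, hc, u, hu, hcu, huv⟩ := mem_filter.1 hv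
      exact mem_filter.2 ⟨hw, c, hc, u, hu, hcu, huv.tail ⟨hvw, hv1, hw⟩⟩
    have hDconn : Conn G D := by
      obtain ⟨⟨c₀, hc₀⟩, hcc⟩ := hcov.1 C₁ hC₁
      refine conn_of_center hs (c := c₀) (mem_union_left _ hc₀) ?_
      intro a ha0
      rcases mem_union.1 ha0 with ha | ha
      · exact (hcc c₀ hc₀ a ha).mono subset_union_left
      · obtain ⟨ha1, c, hc, u, hu, hcu, hua⟩ := mem_filter.1 ha
        have h1 : Rin G D c₀ c := (hcc c₀ hc₀ c hc).mono subset_union_left
        have huE : u ∈ E := hEmem u hu ⟨c, hc, hcu⟩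
        have h2 : Rin G D c₀ u :=
          h1.tail ⟨hcu, mem_union_left _ hc, mem_union_right _ huE⟩
        have h3 : a ∈ E ∧ Rin G D u a := by
          clear ha ha1 ha0
          induction hua with
          | refl => exact ⟨huE, Relation.ReflTransGen.refl⟩
          | tail h4 h5 ih =>
            have h6 := hEclosed _ ih.1 _ h5.2.2 h5.1
            exact ⟨h6, ih.2.tail ⟨h5.1, mem_union_right _ ih.1, mem_union_right _ h6⟩⟩
        exact h2.trans h3.2
    have hDW : D ⊆ W := by
      intro x hx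
      rcases mem_union.1 hx with hx | hx
      · exact hW C₁ hC₁ hx
      · exact hFW (mem_sdiff.1 (hEF hx)).1
    let X' : Finset V := (X \ C₁) ∪ (Z ∩ D)
    have hX'W : X' ⊆ W := by
      intro x hx
      rcases mem_union.1 hx with hx | hx
      · exact hXW (mem_sdiff.1 hx).1
      · exact hZW (mem_inter.1 hx).1
    have hX'card : X'.card ≤ (X \ C₁).card + (Z ∩ D).card := card_union_le _ _
    have hXC₁ : (X \ C₁).card < X.card := by
      obtain ⟨x, hx⟩ := hA C₁ hC₁
      rw [mem_inter] at hx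
      apply card_lt_card
      refine ⟨sdiff_subset, ?_⟩
      intro h
      exact (mem_sdiff.1 (h hx.1)).2 hx.2
    have hZD : (Z ∩ D).card ≤ Z.card := card_le_card inter_subset_left
    obtain ⟨K, hK, hKbig⟩ := hbig X' hX'W (by omega)
    have hKW : K ⊆ W := fun x hx => (mem_sdiff.1 (hK.1 hx)).1
    have hKFD : K ⊆ F \ D := by
      have hmeet := big_meet hKW hHW hKbig hHbig
      rw [Finset.not_disjoint_iff] at hmeet
      obtain ⟨h0, h0K, h0H⟩ := hmeet
      have hstart : h0 ∈ F \ D := by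
        refine mem_sdiff.2 ⟨hHF h0H, ?_⟩
        intro h
        rcases mem_union.1 h with h | h
        · exact Finset.disjoint_left.1 hC₁F h (hHF h0H)
        · exact (mem_sdiff.1 (hEF h)).2 h0H
      intro y hy
      refine conn_induct hK.2.1 h0K (fun x => x ∈ F \ D) hstart ?_ y hy
      intro v _ w hwK hvw hv
      have hv' := mem_sdiff.1 hv
      have hwX' : w ∉ X' := (mem_sdiff.1 (hK.1 hwK)).2
      have hwW : w ∈ W := hKW hwK
      have hwX : w ∉ X := by
        intro hwX
        have hwC : w ∈ C₁ := by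
          by_contra hwC
          exact hwX' (mem_union_left _ (mem_sdiff.2 ⟨hwX, hwC⟩))
        have hvH : v ∉ H := by
          intro hvH
          apply hC₁H
          exact ⟨v, mem_inter.2 ⟨hvH, mem_filter.2 ⟨hv'.1, w, hwC, hs _ _ hvw⟩⟩⟩
        exact hv'.2 (mem_union_right _ (hEmem v (mem_sdiff.2 ⟨hv'.1, hvH⟩) ⟨w, hwC, hs _ _ hvw⟩))
      have hwF : w ∈ F := hF.2.2 v hv'.1 w (mem_sdiff.2 ⟨hwW, hwX⟩) hvw
      refine mem_sdiff.2 ⟨hwF, ?_⟩
      intro hwD
      have hwE : w ∈ E := by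
        rcases mem_union.1 hwD with h | h
        · exact absurd hwF (Finset.disjoint_left.1 hC₁F h)
        · exact h
      have hwH : w ∉ H := (mem_sdiff.1 (hEF hwE)).2
      by_cases hvH : v ∈ H
      · have hwXZ : w ∈ X ∪ Z := by
          by_contra hcon
          exact hwH (hH.2.2 v hvH w (mem_sdiff.2 ⟨hwW, hcon⟩) hvw)
        rcases mem_union.1 hwXZ with h | h
        · exact hwX h
        · exact hwX' (mem_union_right _ (mem_inter.2 ⟨h, hwD⟩))
      · exact hv'.2 (mem_union_right _ (hEclosed w hwE v (mem_sdiff.2 ⟨hv'.1, hvH⟩) (hs _ _ hvw)))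
    have hKF : K ⊆ F := fun x hx => (mem_sdiff.1 (hKFD hx)).1
    have hKcard : K.card + (Z ∩ D).card ≤ F.card := by
      have h1 : Disjoint K (Z ∩ D) := by
        rw [Finset.disjoint_left]
        intro x hx hx'
        exact (mem_sdiff.1 (hKFD hx)).2 (mem_inter.1 hx').2
      have h2 := card_union_of_disjoint h1
      have h3 : (K ∪ (Z ∩ D)).card ≤ F.card :=
        card_le_card (union_subset hKF (inter_subset_left.trans hZF))
      omega
    have hcC : (insert D (𝒞.erase C₁)).card ≤ 𝒞.card := by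
      have h1 := card_insert_le D (𝒞.erase C₁)
      rw [card_erase_of_mem hC₁] at h1
      have hpos : 1 ≤ 𝒞.card := card_pos.2 ⟨C₁, hC₁⟩
      omega
    have hDdis : ∀ C ∈ 𝒞, C ≠ C₁ → Disjoint C D := by
      intro C hC hne
      rw [Finset.disjoint_left]
      intro x hxC hxD
      rcases mem_union.1 hxD with h | h
      · exact Finset.disjoint_left.1 (hcov.2 C hC C₁ hC₁ hne).1 hxC h
      · exact Finset.disjoint_left.1 (hdis C hC) hxC (mem_sdiff.1 (hEF h)).1
    have hcov' : Covey G (insert D (𝒞.erase C₁)) := by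
      refine ⟨?_, ?_⟩
      · intro C hC
        rcases mem_insert.1 hC with rfl | hC
        · exact hDconn
        · exact hcov.1 C (mem_of_mem_erase hC)
      · intro C hC C' hC' hne
        rcases mem_insert.1 hC with hC1 | hC1
        · rcases mem_insert.1 hC' with hC2 | hC2
          · exact absurd (hC1.trans hC2.symm) hne
          · have h1 := mem_erase.1 hC2
            obtain ⟨-, c, hc, d, hd, hcd⟩ := hcov.2 C₁ hC₁ C' h1.2 (Ne.symm h1.1)
            rw [hC1]
            exact ⟨(hDdis C' h1.2 h1.1).symm, c, mem_union_left _ hc, d, hd, hcd⟩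
        · rcases mem_insert.1 hC' with hC2 | hC2
          · have h1 := mem_erase.1 hC1
            obtain ⟨-, c, hc, d, hd, hcd⟩ := hcov.2 C h1.2 C₁ hC₁ h1.1
            rw [hC2]
            exact ⟨hDdis C h1.2 h1.1, c, hc, d, mem_union_left _ hd, hcd⟩
          · exact hcov.2 C (mem_of_mem_erase hC1) C' (mem_of_mem_erase hC2) hne
    refine ih ((insert D (𝒞.erase C₁)).card + X'.card + 3 * K.card) (by omega)
      (insert D (𝒞.erase C₁)) X' K hcov' ?_ ?_ ?_ hK hKbig ?_ rfl
    · intro C hC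
      rcases mem_insert.1 hC with rfl | hC
      · exact hDW
      · exact hW C (mem_of_mem_erase hC)
    · intro x hx
      rcases mem_union.1 hx with hx | hx
      · have hx' := mem_sdiff.1 hx
        obtain ⟨C, hC, hxC⟩ := mem_biUnion.1 (hXC hx'.1)
        refine mem_biUnion.2 ⟨C, mem_insert_of_mem (mem_erase.2 ⟨?_, hC⟩), hxC⟩
        rintro rfl
        exact hx'.2 hxC
      · exact mem_biUnion.2 ⟨D, mem_insert_self _ _, (mem_inter.1 hx).2⟩
    · intro C hC
      rcases mem_insert.1 hC with rfl | hC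
      · refine (card_le_card ?_).trans hZle
        intro x hx
        rw [mem_inter] at hx
        rcases mem_union.1 hx.1 with h | h
        · exfalso
          have h' := mem_sdiff.1 h
          rcases mem_union.1 hx.2 with h2 | h2
          · exact h'.2 h2
          · exact Finset.disjoint_left.1 hFX (mem_sdiff.1 (hEF h2)).1 h'.1
        · exact (mem_inter.1 h).1
      · refine (card_le_card ?_).trans (hXr C (mem_of_mem_erase hC))
        intro x hx
        rw [mem_inter] at hx ⊢
        refine ⟨?_, hx.2⟩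
        rcases mem_union.1 hx.1 with h | h
        · exact (mem_sdiff.1 h).1
        · exact absurd (hZF (mem_inter.1 h).1)
            (Finset.disjoint_left.1 (hdis C (mem_of_mem_erase hC)) hx.2)
    · intro C hC
      rcases mem_insert.1 hC with rfl | hC
      · rw [Finset.disjoint_left]
        intro x hx hx'
        exact (mem_sdiff.1 (hKFD hx')).2 hx
      · exact (hdis C (mem_of_mem_erase hC)).mono_right hKF

/-- separators: every connected subset of the rest has at most half of the points -/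
theorem exists_sep {G : V → V → Prop} (hs : ∀ a b, G a b → G b a)
    (h5 : ∀ 𝒞 : Finset (Finset V), Covey G 𝒞 → 𝒞.card ≤ 4) (W : Finset V) (r : ℕ)
    (hr : 5 * W.card ≤ r * r) (hr1 : 1 ≤ r) :
    ∃ X, X ⊆ W ∧ X.card ≤ 5 * r ∧ ∀ S, S ⊆ W \ X → Conn G S → 2 * S.card ≤ W.card := by
  classical
  by_contra hcon
  push Not at hcon
  have hbig : ∀ X, X ⊆ W → X.card ≤ 5 * r → ∃ F, Flap G W X F ∧ W.card < 2 * F.card := by
    intro X hX hXr
    obtain ⟨S, hSW, hSc, hSbig⟩ := hcon X hX hXr
    obtain ⟨a, ha⟩ := hSc.1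
    refine ⟨comp G (W \ X) a, ⟨comp_sub, comp_conn hs (hSW ha), comp_closed⟩, ?_⟩
    refine hSbig.trans_le (Nat.mul_le_mul_left 2 (card_le_card ?_))
    intro b hb
    exact mem_comp.2 ⟨hSW hb, (hSc.2 a ha b hb).mono hSW⟩
  obtain ⟨F, hF, hFbig⟩ := hbig ∅ (empty_subset _) (by simp)
  refine ast_descent hs h5 W r hr hr1 hbig _ ∅ ∅ F ?_ ?_ ?_ ?_ hF hFbig ?_ rfl
  · exact ⟨fun C hC => absurd hC (notMem_empty C), fun C hC => absurd hC (notMem_empty C)⟩
  · exact fun C hC => absurd hC (notMem_empty C)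
  · exact empty_subset _
  · exact fun C hC => absurd hC (notMem_empty C)
  · exact fun C hC => absurd hC (notMem_empty C)

end HurwitzDiam
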