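import Pool.Agent.Work.MP_f4aefe_co.Route

/-!
A tree word without inversions is determined by its product and the positions.
-/

namespace HurwitzDiam

open Finset Equiv

set_option linter.unusedSectionVars false

variable {V : Type*} [DecidableEq V] [Fintype V]

lemma lab_eq_rank {l : List (Equiv.Perm V)} {m : ℕ} (hl : IsTree l m)
    (hm : Fintype.card V = m + 1) {pos : V → ℕ} (hpos : Function.Injective pos)
    (hinv : Inv l pos = ∅) (p : V) :
    lab l pos p = (univ.filter (fun q => pos q < pos p)).card := by
  have hinj := lab_inj hl hpos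
  have h1 : (univ.filter (fun q => pos q < pos p)).image (lab l pos) = range (lab l pos p) := by
    ext k
    rw [mem_image, mem_range]
    constructor
    · rintro ⟨q, hq, rfl⟩
      have hq' := (mem_filter.1 hq).2
      by_contra hcon
      have hne : lab l pos p ≠ lab l pos q := by
        intro h
        rw [hinj h] at hq'
        exact lt_irrefl _ hq'
      have hmem : (q, p) ∈ Inv l pos := mem_Inv.2 ⟨hq', by simp only; omega⟩
      rw [hinv] at hmem
      exact notMem_empty _ hmem
    · intro hk
      have hkm : k ≤ m := by have := lab_le hl pos p; omega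
      obtain ⟨q, hq⟩ := lab_surj hl hm hpos hkm
      refine ⟨q, mem_filter.2 ⟨mem_univ _, ?_⟩, hq⟩
      by_contra hcon
      have hne : pos p ≠ pos q := by
        intro h
        have := hpos h
        subst this
        omega
      have hmem : (p, q) ∈ Inv l pos := mem_Inv.2 ⟨by simp only; omega, by simp only; omega⟩
      rw [hinv] at hmem
      exact notMem_empty _ hmem
  have h2 := congrArg Finset.card h1
  rw [card_image_of_injective _ hinj, card_range] at h2
  exact h2.symm

lemma singleton_class {l : List (Equiv.Perm V)} {m : ℕ} (hl : IsTree l m)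
    {pos : V → ℕ} (hpos : Function.Injective pos)
    (hinv : Inv l pos = ∅) {p : V} {j : ℕ} (hp : lab l pos p = j + 1) {x : V}
    (hx : Rel (l.take j) p x) : x = p := by
  by_contra hne
  have hs := lab_spec hl hp
  rcases lt_trichotomy (pos x) (pos p) with h | h | h
  · exact hs.1 ⟨x, h, hx⟩
  · exact hne (hpos h)
  · have h1 : lab l pos x ≤ j := (lab_le_iff hl h j).2 ⟨p, h, hx.symm⟩
    have hmem : (p, x) ∈ Inv l pos := mem_Inv.2 ⟨h, by simp only; omega⟩
    rw [hinv] at hmem
    exact notMem_empty _ hmem

lemma last_letter {l : List (Equiv.Perm V)} {m : ℕ} (hl : IsTree l m)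
    {pos : V → ℕ} (hpos : Function.Injective pos)
    (hinv : Inv l pos = ∅) {p : V} {j : ℕ} (hp : lab l pos p = j + 1) :
    l.take (j + 1) = l.take j ++ [swap p ((l.take (j + 1)).prod⁻¹ p)] := by
  have hjm : j < m := by have := lab_le hl pos p; omega
  obtain ⟨a, b, hab, -, hs⟩ := take_succ_swap hl hjm
  have hsp := lab_spec hl hp
  obtain ⟨-, h2⟩ := new_label hs hsp.1 hsp.2
  have hfix : (l.take j).prod p = p :=
    singleton_class hl hpos hinv hp (rel_prod _ _)
  obtain ⟨w, hw⟩ : ∃ w, l.take (j + 1) = l.take j ++ [swap p w] := by
    rcases h2 with ⟨h3, -⟩ | ⟨h3, -⟩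
    · have := singleton_class hl hpos hinv hp h3
      subst this
      exact ⟨b, hs⟩
    · have := singleton_class hl hpos hinv hp h3
      subst this
      exact ⟨a, by rw [swap_comm]; exact hs⟩
  have hwp : (l.take (j + 1)).prod w = p := by
    rw [hw, List.prod_append, List.prod_singleton, Equiv.Perm.mul_apply, swap_apply_right, hfix]
  have hw2 : (l.take (j + 1)).prod⁻¹ p = w := by
    rw [Equiv.Perm.inv_eq_iff_eq]
    exact hwp.symm
  rw [hw2]
  exact hw

theorem word_unique {x y : List (Equiv.Perm V)} {m : ℕ} (hx : IsTree x m) (hy : IsTree y m)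
    (hm : Fintype.card V = m + 1) {pos : V → ℕ} (hpos : Function.Injective pos)
    (hprod : x.prod = y.prod) (hix : Inv x pos = ∅) (hiy : Inv y pos = ∅) : x = y := by
  have key : ∀ j ≤ m, (x.take j).prod = (y.take j).prod → x.take j = y.take j := by
    intro j
    induction j with
    | zero => intro _ _; simp
    | succ j ih =>
      intro hj hpr
      obtain ⟨p, hp⟩ := lab_surj hx hm hpos hj
      have hp' : lab y pos p = j + 1 := by
        rw [lab_eq_rank hy hm hpos hiy, ← lab_eq_rank hx hm hpos hix]
        exact hp
      have h1 := last_letter hx hpos hix hp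
      have h2 := last_letter hy hpos hiy hp'
      rw [← hpr] at h2
      have h3 : (x.take j).prod = (y.take j).prod := by
        have h4 := hpr
        rw [h1, h2, List.prod_append, List.prod_append] at h4
        exact mul_right_cancel h4
      rw [h1, h2, ih (by omega) h3]
  have h := key m le_rfl
  rw [List.take_of_length_le hx.len.le, List.take_of_length_le hy.len.le] at h
  exact h hprod

end HurwitzDiam
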